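import Mathlib

/-!
# 1-nearly independent sets: definitions and the general estimate
-/

namespace H269Av1

open Finset

variable {V : Type}

/-- `S` is a 1-nearly independent set of `G`: exactly one edge of `G` has both ends in `S`. -/
def NearlyIndep (G : SimpleGraph V) (S : Finset V) : Prop :=
  ∃! e : Sym2 V, e ∈ G.edgeSet ∧ ∀ v ∈ e, v ∈ S

open Classical in
/-- The finset of all 1-nearly independent sets of a finite graph. -/
noncomputable def nearSets [Fintype V] (G : SimpleGraph V) : Finset (Finset V) :=
  univ.filter (fun S => NearlyIndep G S)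

/-- `σ₁(G)`, the number of 1-nearly independent sets. -/
noncomputable def sigma1 [Fintype V] (G : SimpleGraph V) : ℕ := (nearSets G).card

/-- `S₁(G)`, the sum of the cardinalities of the 1-nearly independent sets. -/
noncomputable def total1 [Fintype V] (G : SimpleGraph V) : ℕ := ∑ S ∈ nearSets G, S.card

/-- `av₁(G)`, the average cardinality of a 1-nearly independent set. -/
noncomputable def av1 [Fintype V] (G : SimpleGraph V) : ℚ := (total1 G : ℚ) / (sigma1 G : ℚ)

/-- The tree `R_n`: the star with centre `0` and leaves `1, 3, 4, …, n - 1`, and a further vertex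
`2` joined to the leaf `1`. -/
def R (n : ℕ) : SimpleGraph (Fin n) :=
  SimpleGraph.fromRel (fun i j => (i.val = 0 ∧ j.val ≠ 2) ∨ (i.val = 1 ∧ j.val = 2))

open Classical in
/-- Twice the number of edges inside `S`. -/
noncomputable def E2 (G : SimpleGraph V) (S : Finset V) : ℕ :=
  ∑ x ∈ S, ∑ y ∈ S, (if G.Adj x y then 1 else 0)

theorem nearly_iff_exists (G : SimpleGraph V) (S : Finset V) :
    NearlyIndep G S ↔ ∃ u v, G.Adj u v ∧ u ∈ S ∧ v ∈ S ∧
      ∀ x ∈ S, ∀ y ∈ S, G.Adj x y → (x = u ∧ y = v) ∨ (x = v ∧ y = u) := by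
  constructor
  · rintro ⟨e, ⟨he, hS⟩, huniq⟩
    induction e using Sym2.ind with
    | _ u v =>
      refine ⟨u, v, he, hS u (by simp), hS v (by simp), ?_⟩
      intro x hx y hy hxy
      have := huniq s(x, y) ⟨hxy, by
        intro z hz
        rcases Sym2.mem_iff.1 hz with rfl | rfl <;> assumption⟩
      simpa using this
  · rintro ⟨u, v, huv, hu, hv, h⟩
    refine ⟨s(u, v), ⟨huv, ?_⟩, ?_⟩
    · intro z hz
      rcases Sym2.mem_iff.1 hz with rfl | rfl <;> assumption
    · intro e he
      obtain ⟨he, hS⟩ := he
      induction e using Sym2.ind with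
      | _ x y =>
        have := h x (hS x (by simp)) y (hS y (by simp)) he
        simpa using this

theorem E2_eq_card [DecidableEq V] (G : SimpleGraph V) [DecidableRel G.Adj] (S : Finset V) :
    E2 G S = ((S ×ˢ S).filter (fun p => G.Adj p.1 p.2)).card := by
  classical
  unfold E2
  rw [Finset.card_filter, Finset.sum_product]
  apply Finset.sum_congr rfl
  intro x _
  apply Finset.sum_congr rfl
  intro y _
  congr

theorem nearly_iff_E2 (G : SimpleGraph V) (S : Finset V) :
    NearlyIndep G S ↔ E2 G S = 2 := by
  classical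
  rw [nearly_iff_exists, E2_eq_card]
  constructor
  · rintro ⟨u, v, huv, hu, hv, h⟩
    have : (S ×ˢ S).filter (fun p => G.Adj p.1 p.2) = {(u, v), (v, u)} := by
      ext ⟨x, y⟩
      simp only [Finset.mem_filter, Finset.mem_product, Finset.mem_insert, Finset.mem_singleton,
        Prod.mk.injEq]
      constructor
      · rintro ⟨⟨hx, hy⟩, hxy⟩
        exact h x hx y hy hxy
      · rintro (⟨rfl, rfl⟩ | ⟨rfl, rfl⟩)
        · exact ⟨⟨hu, hv⟩, huv⟩
        · exact ⟨⟨hv, hu⟩, huv.symm⟩
    rw [this, Finset.card_pair]
    intro e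
    simp only [Prod.mk.injEq] at e
    exact huv.ne e.1
  · intro h
    obtain ⟨⟨u, v⟩, hp⟩ : ((S ×ˢ S).filter (fun p => G.Adj p.1 p.2)).Nonempty := by
      rw [← Finset.card_pos, h]; norm_num
    simp only [Finset.mem_filter, Finset.mem_product] at hp
    obtain ⟨⟨hu, hv⟩, huv⟩ := hp
    refine ⟨u, v, huv, hu, hv, ?_⟩
    have hsub : ({(u, v), (v, u)} : Finset (V × V)) ⊆
        (S ×ˢ S).filter (fun p => G.Adj p.1 p.2) := by
      intro p hp
      simp only [Finset.mem_insert, Finset.mem_singleton] at hp
      rcases hp with rfl | rfl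
      · simp [hu, hv, huv]
      · simp [hu, hv, huv.symm]
    have hcard : ({(u, v), (v, u)} : Finset (V × V)).card = 2 := by
      apply Finset.card_pair
      intro e
      simp only [Prod.mk.injEq] at e
      exact huv.ne e.1
    have heq := Finset.eq_of_subset_of_card_le hsub (by rw [h, hcard])
    intro x hx y hy hxy
    have : (x, y) ∈ (S ×ˢ S).filter (fun p => G.Adj p.1 p.2) := by
      simp [hx, hy, hxy]
    rw [← heq] at this
    simpa using this

theorem mem_nearSets [Fintype V] (G : SimpleGraph V) (S : Finset V) :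
    S ∈ nearSets G ↔ NearlyIndep G S := by
  simp [nearSets]

/-! ### The estimate for one edge -/

section edge

variable [Fintype V] [DecidableEq V] (G : SimpleGraph V) (u v : V)

/-- The 1-nearly independent sets whose edge is `uv`. -/
noncomputable def fam : Finset (Finset V) := (nearSets G).filter (fun S => u ∈ S ∧ v ∈ S)

theorem mem_fam {G : SimpleGraph V} {u v : V} (huv : G.Adj u v) (S : Finset V) :
    S ∈ fam G u v ↔ u ∈ S ∧ v ∈ S ∧
      ∀ x ∈ S, ∀ y ∈ S, G.Adj x y → (x = u ∧ y = v) ∨ (x = v ∧ y = u) := by
  simp only [fam, Finset.mem_filter, mem_nearSets, nearly_iff_exists]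
  constructor
  · rintro ⟨⟨a, b, hab, ha, hb, h⟩, hu, hv⟩
    refine ⟨hu, hv, ?_⟩
    intro x hx y hy hxy
    have h1 := h x hx y hy hxy
    have h2 := h u hu v hv huv
    rcases h2 with ⟨rfl, rfl⟩ | ⟨rfl, rfl⟩
    · exact h1
    · exact h1.symm
  · rintro ⟨hu, hv, h⟩
    exact ⟨⟨u, v, huv, hu, hv, h⟩, hu, hv⟩

/-- The number of sets of the family that contain `x`. -/
noncomputable def cnt (x : V) : ℕ := ((fam G u v).filter (fun S => x ∈ S)).card

variable {G u v}

theorem erase_mem (huv : G.Adj u v) {S : Finset V} (hS : S ∈ fam G u v) {x : V} (hxu : x ≠ u)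
    (hxv : x ≠ v) : S.erase x ∈ fam G u v := by
  rw [mem_fam huv] at hS ⊢
  obtain ⟨hu, hv, h⟩ := hS
  refine ⟨Finset.mem_erase.2 ⟨hxu.symm, hu⟩, Finset.mem_erase.2 ⟨hxv.symm, hv⟩, ?_⟩
  intro a ha b hb hab
  exact h a (Finset.mem_of_mem_erase ha) b (Finset.mem_of_mem_erase hb) hab

/-- The number of sets of the family that contain `a` is at most the number of those that contain
neither `a` nor `b`, if `a` and `b` are adjacent or equal. -/
theorem cnt_le_aux (huv : G.Adj u v) {a b : V} (hau : a ≠ u) (hav : a ≠ v)
    (hbu : b ≠ u) (hab : G.Adj a b ∨ a = b) :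
    cnt G u v a ≤ ((fam G u v).filter (fun S => a ∉ S ∧ b ∉ S)).card := by
  unfold cnt
  apply Finset.card_le_card_of_injOn (fun S => S.erase a)
  · intro S hS
    have hS := Finset.mem_coe.1 hS
    rw [Finset.mem_filter] at hS
    apply Finset.mem_coe.2
    rw [Finset.mem_filter]
    refine ⟨erase_mem huv hS.1 hau hav, by simp, ?_⟩
    intro hb
    have hb' := Finset.mem_of_mem_erase hb
    rcases hab with hab | hab
    · have := ((mem_fam huv S).1 hS.1).2.2 a hS.2 b hb' hab
      rcases this with h | h
      · exact hau h.1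
      · exact hav h.1
    · subst hab
      simp at hb
  · intro S hS T hT hST
    have hS := Finset.mem_coe.1 hS
    have hT := Finset.mem_coe.1 hT
    rw [Finset.mem_filter] at hS hT
    simp only at hST
    rw [← Finset.insert_erase hS.2, ← Finset.insert_erase hT.2, hST]

theorem cnt_half (huv : G.Adj u v) {x : V} (hxu : x ≠ u) (hxv : x ≠ v) :
    2 * cnt G u v x ≤ (fam G u v).card := by
  have h1 := cnt_le_aux huv hxu hxv hxu (Or.inr rfl) (b := x)
  have h2 := Finset.card_filter_add_card_filter_not (s := fam G u v) (fun S => x ∈ S)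
  have h3 : ((fam G u v).filter (fun S => x ∉ S ∧ x ∉ S)) =
      ((fam G u v).filter (fun S => ¬ x ∈ S)) := by
    apply Finset.filter_congr; intro S _; simp
  rw [h3] at h1
  unfold cnt at h1 ⊢
  omega

theorem cnt_pair (huv : G.Adj u v) {a b : V} (hau : a ≠ u) (hav : a ≠ v)
    (hbu : b ≠ u) (hbv : b ≠ v) (hab : G.Adj a b) :
    3 * (cnt G u v a + cnt G u v b) ≤ 2 * (fam G u v).card := by
  have h1 := cnt_le_aux huv hau hav hbu (Or.inl hab)
  have h2 := cnt_le_aux huv hbu hbv hau (Or.inl hab.symm)
  have h2' : ((fam G u v).filter (fun S => b ∉ S ∧ a ∉ S)) =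
      ((fam G u v).filter (fun S => a ∉ S ∧ b ∉ S)) := by
    apply Finset.filter_congr; intro S _; exact and_comm
  rw [h2'] at h2
  have h3 : cnt G u v a + cnt G u v b + ((fam G u v).filter (fun S => a ∉ S ∧ b ∉ S)).card ≤
      (fam G u v).card := by
    unfold cnt
    rw [← Finset.card_union_of_disjoint, ← Finset.card_union_of_disjoint]
    · apply Finset.card_le_card
      intro S hS
      simp only [Finset.mem_union, Finset.mem_filter] at hS
      tauto
    · rw [Finset.disjoint_left]
      intro S hS hS'
      simp only [Finset.mem_union, Finset.mem_filter] at hS hS'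
      tauto
    · rw [Finset.disjoint_left]
      intro S hS hS'
      simp only [Finset.mem_filter] at hS hS'
      have := ((mem_fam huv S).1 hS.1).2.2 a hS.2 b hS'.2 hab
      rcases this with h | h
      · exact hau h.1
      · exact hav h.1
  omega

theorem cnt_nbr (huv : G.Adj u v) {x : V} (hxu : x ≠ u) (hxv : x ≠ v)
    (h : G.Adj x u ∨ G.Adj x v) : cnt G u v x = 0 := by
  unfold cnt
  rw [Finset.card_eq_zero, Finset.filter_eq_empty_iff]
  intro S hS hx
  rw [mem_fam huv] at hS
  obtain ⟨hu, hv, hS⟩ := hS
  rcases h with h | h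
  · rcases hS x hx u hu h with h | h
    · exact hxu h.1
    · exact hxv h.1
  · rcases hS x hx v hv h with h | h
    · exact hxu h.1
    · exact hxv h.1

theorem cnt_le (x : V) : cnt G u v x ≤ (fam G u v).card :=
  Finset.card_le_card (Finset.filter_subset _ _)

theorem sum_card_fam : ∑ S ∈ fam G u v, S.card = ∑ x : V, cnt G u v x := by
  have : ∀ S : Finset V, S.card = ∑ x : V, (if x ∈ S then 1 else 0) := by
    intro S
    simp
  rw [Finset.sum_congr rfl (fun S _ => this S), Finset.sum_comm]
  apply Finset.sum_congr rfl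
  intro x _
  rw [cnt, Finset.card_filter]

/-- The estimate when `uv` has two neighbours outside. -/
theorem edge_bound_two (huv : G.Adj u v) {w w' : V} (hwu : w ≠ u) (hwv : w ≠ v) (hwu' : w' ≠ u)
    (hwv' : w' ≠ v) (hne : w ≠ w') (hw : G.Adj w u ∨ G.Adj w v) (hw' : G.Adj w' u ∨ G.Adj w' v) :
    6 * ∑ S ∈ fam G u v, S.card ≤ (3 * Fintype.card V + 1) * (fam G u v).card := by
  rw [sum_card_fam]
  have huvne := huv.ne
  set F := (fam G u v).card with hF
  have hsplit : (univ : Finset V) = insert u (insert v (insert w (insert w'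
      (univ \ {u, v, w, w'})))) := by
    ext x
    simp only [Finset.mem_univ, Finset.mem_insert, Finset.mem_sdiff, Finset.mem_singleton,
      true_and, true_iff]
    tauto
  have hcard : (univ \ {u, v, w, w'} : Finset V).card + 4 = Fintype.card V := by
    have h4 : ({u, v, w, w'} : Finset V).card = 4 := by
      rw [Finset.card_insert_of_notMem, Finset.card_insert_of_notMem, Finset.card_pair hne]
      · simp only [Finset.mem_insert, Finset.mem_singleton, not_or]
        exact ⟨hwv.symm, hwv'.symm⟩
      · simp only [Finset.mem_insert, Finset.mem_singleton, not_or]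
        exact ⟨huvne, hwu.symm, hwu'.symm⟩
    have := Finset.card_sdiff_add_card_eq_card (Finset.subset_univ ({u, v, w, w'} : Finset V))
    rw [h4, Finset.card_univ] at this
    exact this
  have hrest : ∑ x ∈ (univ \ {u, v, w, w'} : Finset V), 2 * cnt G u v x ≤
      (univ \ {u, v, w, w'} : Finset V).card * F := by
    rw [← smul_eq_mul]
    apply Finset.sum_le_card_nsmul
    intro x hx
    simp only [Finset.mem_sdiff, Finset.mem_insert, Finset.mem_singleton, not_or,
      Finset.mem_univ, true_and] at hx
    exact cnt_half huv hx.1 hx.2.1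
  rw [hsplit, Finset.sum_insert, Finset.sum_insert, Finset.sum_insert, Finset.sum_insert]
  · rw [cnt_nbr huv hwu hwv hw, cnt_nbr huv hwu' hwv' hw']
    rw [← Finset.mul_sum] at hrest
    have h1 := cnt_le (G := G) (u := u) (v := v) u
    have h2 := cnt_le (G := G) (u := u) (v := v) v
    rw [← hF] at h1 h2
    rw [← hcard]
    nlinarith
  · simp
  · simp only [Finset.mem_insert, Finset.mem_sdiff, Finset.mem_singleton, Finset.mem_univ,
      true_and, not_or]
    exact ⟨hne, by tauto⟩
  · simp only [Finset.mem_insert, Finset.mem_sdiff, Finset.mem_singleton, Finset.mem_univ,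
      true_and, not_or]
    exact ⟨hwv.symm, hwv'.symm, by tauto⟩
  · simp only [Finset.mem_insert, Finset.mem_sdiff, Finset.mem_singleton, Finset.mem_univ,
      true_and, not_or]
    exact ⟨huvne, hwu.symm, hwu'.symm, by tauto⟩

/-- The estimate when `uv` has a neighbour `w` outside and there is an edge `ab` disjoint from
`u, v, w`. -/
theorem edge_bound_one (huv : G.Adj u v) {w a b : V} (hwu : w ≠ u) (hwv : w ≠ v)
    (hw : G.Adj w u ∨ G.Adj w v) (hab : G.Adj a b) (hau : a ≠ u) (hav : a ≠ v) (haw : a ≠ w)
    (hbu : b ≠ u) (hbv : b ≠ v) (hbw : b ≠ w) :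
    6 * ∑ S ∈ fam G u v, S.card ≤ (3 * Fintype.card V + 1) * (fam G u v).card := by
  rw [sum_card_fam]
  have huvne := huv.ne
  have habne := hab.ne
  set F := (fam G u v).card with hF
  have hsplit : (univ : Finset V) = insert u (insert v (insert w (insert a (insert b
      (univ \ {u, v, w, a, b}))))) := by
    ext x
    simp only [Finset.mem_univ, Finset.mem_insert, Finset.mem_sdiff, Finset.mem_singleton,
      true_and, true_iff]
    tauto
  have hcard : (univ \ {u, v, w, a, b} : Finset V).card + 5 = Fintype.card V := by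
    have h4 : ({u, v, w, a, b} : Finset V).card = 5 := by
      rw [Finset.card_insert_of_notMem, Finset.card_insert_of_notMem,
        Finset.card_insert_of_notMem, Finset.card_pair habne]
      · simp only [Finset.mem_insert, Finset.mem_singleton, not_or]
        exact ⟨haw.symm, hbw.symm⟩
      · simp only [Finset.mem_insert, Finset.mem_singleton, not_or]
        exact ⟨hwv.symm, hav.symm, hbv.symm⟩
      · simp only [Finset.mem_insert, Finset.mem_singleton, not_or]
        exact ⟨huvne, hwu.symm, hau.symm, hbu.symm⟩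
    have := Finset.card_sdiff_add_card_eq_card (Finset.subset_univ ({u, v, w, a, b} : Finset V))
    rw [h4, Finset.card_univ] at this
    exact this
  have hrest : ∑ x ∈ (univ \ {u, v, w, a, b} : Finset V), 2 * cnt G u v x ≤
      (univ \ {u, v, w, a, b} : Finset V).card * F := by
    rw [← smul_eq_mul]
    apply Finset.sum_le_card_nsmul
    intro x hx
    simp only [Finset.mem_sdiff, Finset.mem_insert, Finset.mem_singleton, not_or,
      Finset.mem_univ, true_and] at hx
    exact cnt_half huv hx.1 hx.2.1
  rw [hsplit, Finset.sum_insert, Finset.sum_insert, Finset.sum_insert, Finset.sum_insert,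
    Finset.sum_insert]
  · rw [cnt_nbr huv hwu hwv hw]
    rw [← Finset.mul_sum] at hrest
    have h1 := cnt_le (G := G) (u := u) (v := v) u
    have h2 := cnt_le (G := G) (u := u) (v := v) v
    have h3 := cnt_pair huv hau hav hbu hbv hab
    rw [← hF] at h1 h2 h3
    rw [← hcard]
    nlinarith
  · simp
  · simp only [Finset.mem_insert, Finset.mem_sdiff, Finset.mem_singleton, Finset.mem_univ,
      true_and, not_or]
    exact ⟨habne, by tauto⟩
  · simp only [Finset.mem_insert, Finset.mem_sdiff, Finset.mem_singleton, Finset.mem_univ,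
      true_and, not_or]
    exact ⟨haw.symm, hbw.symm, by tauto⟩
  · simp only [Finset.mem_insert, Finset.mem_sdiff, Finset.mem_singleton, Finset.mem_univ,
      true_and, not_or]
    exact ⟨hwv.symm, hav.symm, hbv.symm, by tauto⟩
  · simp only [Finset.mem_insert, Finset.mem_sdiff, Finset.mem_singleton, Finset.mem_univ,
      true_and, not_or]
    exact ⟨huvne, hwu.symm, hau.symm, hbu.symm, by tauto⟩

end edge

/-- Double counting: if the estimate holds for every edge, it holds for the whole graph. -/
theorem global_bound [Fintype V] [DecidableEq V] (G : SimpleGraph V) (C : ℕ)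
    (h : ∀ u v, G.Adj u v → 6 * ∑ S ∈ fam G u v, S.card ≤ C * (fam G u v).card) :
    6 * total1 G ≤ C * sigma1 G := by
  classical
  have key : ∀ f : Finset V → ℕ, 2 * ∑ S ∈ nearSets G, f S =
      ∑ x : V, ∑ y : V, (if G.Adj x y then ∑ S ∈ fam G x y, f S else 0) := by
    intro f
    have h1 : ∀ x y : V, (if G.Adj x y then ∑ S ∈ fam G x y, f S else 0) =
        ∑ S ∈ nearSets G, (if G.Adj x y ∧ x ∈ S ∧ y ∈ S then f S else 0) := by
      intro x y
      by_cases hxy : G.Adj x y
      · simp only [hxy, if_true, true_and, fam, Finset.sum_filter]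
      · simp [hxy]
    simp only [h1]
    rw [Finset.mul_sum]
    have h2 : ∀ S ∈ nearSets G, 2 * f S =
        ∑ x : V, ∑ y : V, (if G.Adj x y ∧ x ∈ S ∧ y ∈ S then f S else 0) := by
      intro S hS
      rw [mem_nearSets, nearly_iff_E2] at hS
      rw [← hS]
      unfold E2
      rw [Finset.sum_mul]
      rw [← Finset.sum_subset (Finset.subset_univ S)]
      · apply Finset.sum_congr rfl
        intro x hx
        rw [Finset.sum_mul]
        rw [← Finset.sum_subset (Finset.subset_univ S)]
        · apply Finset.sum_congr rfl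
          intro y hy
          by_cases hxy : G.Adj x y
          · simp [hxy, hx, hy]
          · simp [hxy]
        · intro y _ hy
          simp [hy]
      · intro x _ hx
        simp [hx]
    rw [Finset.sum_congr rfl h2, Finset.sum_comm]
    apply Finset.sum_congr rfl
    intro x _
    rw [Finset.sum_comm]
  have k1 := key (fun S => S.card)
  have k2 := key (fun _ => 1)
  simp only [Finset.sum_const, smul_eq_mul, mul_one] at k2
  have : 6 * (2 * total1 G) ≤ C * (2 * sigma1 G) := by
    unfold total1 sigma1
    rw [k1, k2, Finset.mul_sum, Finset.mul_sum]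
    apply Finset.sum_le_sum
    intro x _
    rw [Finset.mul_sum, Finset.mul_sum]
    apply Finset.sum_le_sum
    intro y _
    by_cases hxy : G.Adj x y
    · simp only [hxy, if_true]
      exact h x y hxy
    · simp [hxy]
  nlinarith

end H269Av1
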