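import Pool.Agent.H269Av1.Basic

/-!
# 1-nearly independent sets: rooted trees with at most nine vertices

For a rooted tree we record, for each of the classes (root not in `S`, root in `S`) and
(`S` spans no edge, exactly one edge), the number of sets `S` and the sum of their sizes.  These
eight numbers behave well under gluing a rooted tree to the root, so that the list of all possible
octuples for trees with at most nine vertices is easily computed.
-/

namespace H269Av1

open Finset

variable {V : Type}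

/-- `RT G A r`: the vertices of `A` span a tree, described by repeatedly gluing rooted trees. -/
inductive RT [DecidableEq V] (G : SimpleGraph V) : Finset V → V → Prop
  | single (r : V) : RT G {r} r
  | glue {A B : Finset V} {r c : V} : RT G A r → RT G B c → Disjoint A B → G.Adj r c →
      (∀ x ∈ A, ∀ y ∈ B, G.Adj x y → x = r ∧ y = c) → RT G (A ∪ B) r

theorem RT.root_mem [DecidableEq V] {G : SimpleGraph V} {A : Finset V} {r : V} (h : RT G A r) :
    r ∈ A := by
  induction h with
  | single r => simp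
  | glue _ _ _ _ _ ih _ => exact Finset.mem_union_left _ ih

theorem RT.add_leaf [DecidableEq V] {G : SimpleGraph V} {A : Finset V} {r p l : V} (h : RT G A r)
    (hl : l ∉ A) (hp : p ∈ A) (hpl : G.Adj p l) (huniq : ∀ x ∈ A, G.Adj x l → x = p) :
    RT G (insert l A) r := by
  induction h with
  | single r =>
    have hpr : p = r := by simpa using hp
    subst hpr
    have hne : p ≠ l := hpl.ne
    have : insert l {p} = ({p} ∪ {l} : Finset V) := by
      ext x; simp [or_comm]
    rw [this]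
    refine RT.glue (RT.single p) (RT.single l) ?_ hpl ?_
    · simpa using hne
    · intro x hx y hy _
      exact ⟨by simpa using hx, by simpa using hy⟩
  | @glue A B r c hA hB hdisj hrc hcross ihA ihB =>
    have hlA : l ∉ A := fun h => hl (Finset.mem_union_left _ h)
    have hlB : l ∉ B := fun h => hl (Finset.mem_union_right _ h)
    rcases Finset.mem_union.1 hp with hpA | hpB
    · have h1 := ihA hlA hpA (fun x hx => huniq x (Finset.mem_union_left _ hx))
      rw [← Finset.insert_union]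
      refine RT.glue h1 hB ?_ hrc ?_
      · rw [Finset.disjoint_insert_left]
        exact ⟨hlB, hdisj⟩
      · intro x hx y hy hxy
        rcases Finset.mem_insert.1 hx with rfl | hx
        · have := huniq y (Finset.mem_union_right _ hy) hxy.symm
          subst this
          exact absurd hy (Finset.disjoint_left.1 hdisj hpA)
        · exact hcross x hx y hy hxy
    · have h1 := ihB hlB hpB (fun x hx => huniq x (Finset.mem_union_right _ hx))
      rw [← Finset.union_insert]
      refine RT.glue hA h1 ?_ hrc ?_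
      · rw [Finset.disjoint_insert_right]
        exact ⟨hlA, hdisj⟩
      · intro x hx y hy hxy
        rcases Finset.mem_insert.1 hy with rfl | hy
        · have := huniq x (Finset.mem_union_left _ hx) hxy
          subst this
          exact absurd hpB (Finset.disjoint_left.1 hdisj hx)
        · exact hcross x hx y hy hxy

theorem RT.map {W : Type} [DecidableEq V] [DecidableEq W] {G : SimpleGraph V} (f : W ↪ V)
    {A : Finset W} {r : W} (h : RT (G.comap f) A r) : RT G (A.map f) (f r) := by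
  induction h with
  | single r => rw [Finset.map_singleton]; exact RT.single _
  | @glue A B r c hA hB hdisj hrc hcross ihA ihB =>
    rw [Finset.map_union]
    refine RT.glue ihA ihB ?_ hrc ?_
    · exact (Finset.disjoint_map f).2 hdisj
    · intro x hx y hy hxy
      obtain ⟨x', hx', rfl⟩ := Finset.mem_map.1 hx
      obtain ⟨y', hy', rfl⟩ := Finset.mem_map.1 hy
      obtain ⟨h1, h2⟩ := hcross x' hx' y' hy' hxy
      rw [h1, h2]
      exact ⟨rfl, rfl⟩

theorem tree_RT : ∀ (n : ℕ) (V : Type) [Fintype V] [DecidableEq V] (T : SimpleGraph V),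
    T.IsTree → Fintype.card V = n → ∀ r, RT T univ r := by
  intro n
  induction n with
  | zero =>
    intro V _ _ T _ hc r
    have := Fintype.card_pos_iff.2 ⟨r⟩
    omega
  | succ n ih =>
    intro V _ _ T hT hc r
    classical
    by_cases hn : n = 0
    · subst hn
      have : (univ : Finset V) = {r} := by
        have h1 : Fintype.card V ≤ 1 := by omega
        rw [Fintype.card_le_one_iff] at h1
        ext x
        simp [h1 x r]
      rw [this]
      exact RT.single r
    · have : Nontrivial V := by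
        rw [← Fintype.one_lt_card_iff_nontrivial]; omega
      obtain ⟨v, hv⟩ := hT.exists_vert_degree_one_of_nontrivial
      obtain ⟨p, hp, hpu⟩ := SimpleGraph.degree_eq_one_iff_existsUnique_adj.1 hv
      have hT' : (T.induce ({v}ᶜ : Set V)).IsTree :=
        ⟨hT.connected.induce_compl_singleton_of_degree_eq_one hv, hT.isAcyclic.induce _⟩
      have hcard : Fintype.card (({v}ᶜ : Set V) : Type) = n := by
        have h1 := Fintype.card_compl_set ({v} : Set V)
        rw [h1]
        simp [hc]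
      have hmap : ∀ r' : (({v}ᶜ : Set V) : Type), RT T (univ.erase v) r'.1 := by
        intro r'
        have h1 := ih _ (T.induce ({v}ᶜ : Set V)) hT' hcard r'
        have h2 := RT.map (G := T) (Function.Embedding.subtype _) h1
        have h3 : (univ : Finset (({v}ᶜ : Set V) : Type)).map (Function.Embedding.subtype _) =
            univ.erase v := by
          ext x
          simp
        rw [h3] at h2
        exact h2
      have hins : insert v (univ.erase v) = (univ : Finset V) :=
        Finset.insert_erase (Finset.mem_univ v)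
      have hpv : p ≠ v := hp.ne'
      by_cases hr : r = v
      · subst hr
        have h1 := hmap ⟨p, by simpa using hpv⟩
        have h2 : ({r} ∪ univ.erase r : Finset V) = univ := by
          rw [← Finset.insert_eq]; exact hins
        rw [← h2]
        refine RT.glue (RT.single r) h1 ?_ hp ?_
        · simp
        · intro x hx y _ hxy
          have hx' : x = r := by simpa using hx
          subst hx'
          exact ⟨rfl, hpu y hxy⟩
      · have h1 := hmap ⟨r, by simpa using hr⟩
        rw [← hins]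
        refine RT.add_leaf h1 (by simp) (p := p) (by simp [hpv]) hp.symm ?_
        intro x _ hx
        exact hpu x hx.symm

/-! ### Counting with sizes -/

open Classical in
/-- Weight of a set: `(1, |X|)` if `X` belongs to the class, and `(0, 0)` otherwise. -/
noncomputable def wt (G : SimpleGraph V) (b : Bool) (k : ℕ) (r : V) (X : Finset V) : ℕ × ℕ :=
  if ((r ∈ X) ↔ b = true) ∧ E2 G X = 2 * k then (1, X.card) else (0, 0)

/-- The number of sets of the class, and the sum of their sizes. -/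
noncomputable def cs (G : SimpleGraph V) (A : Finset V) (r : V) (b : Bool) (k : ℕ) : ℕ × ℕ :=
  ∑ X ∈ A.powerset, wt G b k r X

/-- Multiplication of dual numbers. -/
def mul (p q : ℕ × ℕ) : ℕ × ℕ := (p.1 * q.1, p.2 * q.1 + p.1 * q.2)

theorem sum_mul_sum {α β : Type} (s : Finset α) (t : Finset β) (f : α → ℕ × ℕ) (g : β → ℕ × ℕ) :
    ∑ x ∈ s, ∑ y ∈ t, mul (f x) (g y) = mul (∑ x ∈ s, f x) (∑ y ∈ t, g y) := by
  apply Prod.ext
  · simp only [mul, Prod.fst_sum, Finset.sum_mul_sum]
  · simp only [mul, Prod.snd_sum, Prod.fst_sum, Finset.sum_mul_sum, Finset.sum_add_distrib]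

theorem sum_powerset_union [DecidableEq V] {M : Type} [AddCommMonoid M] (A B : Finset V)
    (h : Disjoint A B) (f : Finset V → M) :
    ∑ S ∈ (A ∪ B).powerset, f S = ∑ X ∈ A.powerset, ∑ Y ∈ B.powerset, f (X ∪ Y) := by
  induction B using Finset.induction generalizing f with
  | empty => simp
  | insert b B hb ih =>
    rw [Finset.disjoint_insert_right] at h
    have hb' : b ∉ A ∪ B := by simp [h.1, hb]
    rw [Finset.union_insert, Finset.sum_powerset_insert hb', ih h.2, ih h.2]
    rw [← Finset.sum_add_distrib]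
    apply Finset.sum_congr rfl
    intro X _
    rw [Finset.sum_powerset_insert hb]
    congr 1
    apply Finset.sum_congr rfl
    intro Y _
    rw [Finset.union_insert]

theorem E2_union [DecidableEq V] {G : SimpleGraph V} {X Y : Finset V} {r c : V}
    (hdisj : Disjoint X Y) (hrc : G.Adj r c)
    (hcross : ∀ x ∈ X, ∀ y ∈ Y, G.Adj x y → x = r ∧ y = c) :
    E2 G (X ∪ Y) = E2 G X + E2 G Y + 2 * (if r ∈ X ∧ c ∈ Y then 1 else 0) := by
  classical
  have hX : ∑ x ∈ X, ∑ y ∈ Y, (if G.Adj x y then 1 else 0) = (if r ∈ X ∧ c ∈ Y then 1 else 0) := by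
    have h1 : ∀ x ∈ X, ∀ y ∈ Y, (if G.Adj x y then 1 else 0) =
        (if x = r then (if y = c then 1 else 0) else 0) := by
      intro x hx y hy
      by_cases hxy : G.Adj x y
      · obtain ⟨rfl, rfl⟩ := hcross x hx y hy hxy
        simp [hxy]
      · by_cases hx' : x = r
        · by_cases hy' : y = c
          · subst hx' hy'
            exact absurd hrc hxy
          · simp [hxy, hy']
        · simp [hxy, hx']
    rw [Finset.sum_congr rfl (fun x hx => Finset.sum_congr rfl (fun y hy => h1 x hx y hy))]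
    have h2 : ∀ x ∈ X, ∑ y ∈ Y, (if x = r then (if y = c then 1 else 0) else 0) =
        (if x = r then (if c ∈ Y then 1 else 0) else 0) := by
      intro x _
      by_cases hx : x = r
      · simp only [hx, if_true]
        rw [Finset.sum_ite_eq']
      · simp [hx]
    rw [Finset.sum_congr rfl h2, Finset.sum_ite_eq']
    by_cases h3 : r ∈ X <;> by_cases h4 : c ∈ Y <;> simp [h3, h4]
  have hY : ∑ x ∈ Y, ∑ y ∈ X, (if G.Adj x y then 1 else 0) = (if r ∈ X ∧ c ∈ Y then 1 else 0) := by
    rw [Finset.sum_comm, ← hX]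
    apply Finset.sum_congr rfl
    intro x _
    apply Finset.sum_congr rfl
    intro y _
    simp only [G.adj_comm]
  unfold E2
  rw [Finset.sum_union hdisj]
  simp only [Finset.sum_union hdisj, Finset.sum_add_distrib]
  rw [hX, hY]
  ring

theorem E2_even (G : SimpleGraph V) (S : Finset V) : ∃ i, E2 G S = 2 * i := by
  classical
  induction S using Finset.induction with
  | empty => exact ⟨0, by simp [E2]⟩
  | insert a S ha ih =>
    obtain ⟨i, hi⟩ := ih
    refine ⟨i + ∑ y ∈ S, (if G.Adj a y then 1 else 0), ?_⟩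
    unfold E2 at hi ⊢
    rw [Finset.sum_insert ha]
    simp only [Finset.sum_insert ha, Finset.sum_add_distrib]
    rw [hi]
    have : ∑ x ∈ S, (if G.Adj x a then 1 else 0) = ∑ y ∈ S, (if G.Adj a y then 1 else 0) := by
      apply Finset.sum_congr rfl
      intro x _
      simp only [G.adj_comm]
    rw [this]
    simp
    ring

/-- The pointwise gluing rule. -/
theorem wt_union [DecidableEq V] {G : SimpleGraph V} {X Y : Finset V} {r c : V}
    (hdisj : Disjoint X Y) (hrc : G.Adj r c) (hr : r ∉ Y)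
    (hcross : ∀ x ∈ X, ∀ y ∈ Y, G.Adj x y → x = r ∧ y = c) :
    wt G false 0 r (X ∪ Y) = mul (wt G false 0 r X) (wt G false 0 c Y + wt G true 0 c Y) ∧
    wt G true 0 r (X ∪ Y) = mul (wt G true 0 r X) (wt G false 0 c Y) ∧
    wt G false 1 r (X ∪ Y) = mul (wt G false 1 r X) (wt G false 0 c Y + wt G true 0 c Y) +
      mul (wt G false 0 r X) (wt G false 1 c Y + wt G true 1 c Y) ∧
    wt G true 1 r (X ∪ Y) = mul (wt G true 1 r X) (wt G false 0 c Y) +
      mul (wt G true 0 r X) (wt G false 1 c Y) + mul (wt G true 0 r X) (wt G true 0 c Y) := by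
  obtain ⟨i, hi⟩ := E2_even G X
  obtain ⟨j, hj⟩ := E2_even G Y
  have hE := E2_union hdisj hrc hcross
  have hcard : (X ∪ Y).card = X.card + Y.card := Finset.card_union_of_disjoint hdisj
  have hmem : r ∈ X ∪ Y ↔ r ∈ X := by simp [hr]
  rw [hi, hj] at hE
  unfold wt
  rw [hE, hi, hj, hcard]
  simp only [hmem]
  by_cases h1 : r ∈ X <;> by_cases h2 : c ∈ Y <;> rcases i with _ | _ | i <;>
    rcases j with _ | _ | j <;> simp [h1, h2, mul] <;> (try omega)


/-! ### Octuples -/

/-- Octuples `(a₀, s₀, a₁, s₁, b₀, t₀, b₁, t₁)`. -/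
abbrev Tup := ℕ × ℕ × ℕ × ℕ × ℕ × ℕ × ℕ × ℕ

/-- The gluing rule for octuples. -/
def merge : Tup → Tup → Tup
  | (a0, s0, a1, s1, b0, t0, b1, t1), (c0, u0, c1, u1, d0, v0, d1, v1) =>
    (a0 * (c0 + c1), s0 * (c0 + c1) + a0 * (u0 + u1),
     a1 * c0, s1 * c0 + a1 * u0,
     b0 * (c0 + c1) + a0 * (d0 + d1),
     (t0 * (c0 + c1) + b0 * (u0 + u1)) + (s0 * (d0 + d1) + a0 * (v0 + v1)),
     b1 * c0 + a1 * d0 + a1 * c1,
     (t1 * c0 + b1 * u0) + (s1 * d0 + a1 * v0) + (s1 * c1 + a1 * u1))

/-- The octuple of a rooted tree. -/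
noncomputable def tup (G : SimpleGraph V) (A : Finset V) (r : V) : Tup :=
  ((cs G A r false 0).1, (cs G A r false 0).2, (cs G A r true 0).1, (cs G A r true 0).2,
    (cs G A r false 1).1, (cs G A r false 1).2, (cs G A r true 1).1, (cs G A r true 1).2)

theorem tup_single [DecidableEq V] (G : SimpleGraph V) (r : V) :
    tup G {r} r = (1, 0, 1, 1, 0, 0, 0, 0) := by
  have h : ({r} : Finset V).powerset = {∅, {r}} := by
    ext S
    simp [Finset.subset_singleton_iff]
  have h0 : (∅ : Finset V) ≠ {r} := (Finset.singleton_ne_empty r).symm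
  have e1 : E2 G (∅ : Finset V) = 0 := by simp [E2]
  have e2 : E2 G ({r} : Finset V) = 0 := by simp [E2]
  have hcs : ∀ b k, cs G {r} r b k = wt G b k r ∅ + wt G b k r {r} := by
    intro b k
    rw [cs, h, Finset.sum_pair h0]
  simp [tup, hcs, wt, e1, e2]

theorem tup_glue [DecidableEq V] {G : SimpleGraph V} {A B : Finset V} {r c : V}
    (hdisj : Disjoint A B) (hrA : r ∈ A) (hrc : G.Adj r c)
    (hcross : ∀ x ∈ A, ∀ y ∈ B, G.Adj x y → x = r ∧ y = c) :
    tup G (A ∪ B) r = merge (tup G A r) (tup G B c) := by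
  have hrB : r ∉ B := Finset.disjoint_left.1 hdisj hrA
  have key : ∀ X ∈ A.powerset, ∀ Y ∈ B.powerset, _ := fun X hX Y hY =>
    wt_union (G := G) (X := X) (Y := Y) (r := r) (c := c)
      (Finset.disjoint_of_subset_left (Finset.mem_powerset.1 hX)
        (Finset.disjoint_of_subset_right (Finset.mem_powerset.1 hY) hdisj)) hrc
      (fun h => hrB (Finset.mem_powerset.1 hY h))
      (fun x hx y hy => hcross x (Finset.mem_powerset.1 hX hx) y (Finset.mem_powerset.1 hY hy))
  have e1 : cs G (A ∪ B) r false 0 =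
      mul (cs G A r false 0) (cs G B c false 0 + cs G B c true 0) := by
    unfold cs
    rw [sum_powerset_union A B hdisj, ← Finset.sum_add_distrib, ← sum_mul_sum]
    exact Finset.sum_congr rfl (fun X hX => Finset.sum_congr rfl (fun Y hY => (key X hX Y hY).1))
  have e2 : cs G (A ∪ B) r true 0 = mul (cs G A r true 0) (cs G B c false 0) := by
    unfold cs
    rw [sum_powerset_union A B hdisj, ← sum_mul_sum]
    exact Finset.sum_congr rfl
      (fun X hX => Finset.sum_congr rfl (fun Y hY => (key X hX Y hY).2.1))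
  have e3 : cs G (A ∪ B) r false 1 =
      mul (cs G A r false 1) (cs G B c false 0 + cs G B c true 0) +
      mul (cs G A r false 0) (cs G B c false 1 + cs G B c true 1) := by
    unfold cs
    rw [sum_powerset_union A B hdisj, ← Finset.sum_add_distrib, ← sum_mul_sum,
      ← Finset.sum_add_distrib, ← sum_mul_sum, ← Finset.sum_add_distrib]
    apply Finset.sum_congr rfl
    intro X hX
    rw [← Finset.sum_add_distrib]
    exact Finset.sum_congr rfl (fun Y hY => (key X hX Y hY).2.2.1)
  have e4 : cs G (A ∪ B) r true 1 =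
      mul (cs G A r true 1) (cs G B c false 0) + mul (cs G A r true 0) (cs G B c false 1) +
        mul (cs G A r true 0) (cs G B c true 0) := by
    unfold cs
    rw [sum_powerset_union A B hdisj, ← sum_mul_sum, ← sum_mul_sum, ← sum_mul_sum,
      ← Finset.sum_add_distrib, ← Finset.sum_add_distrib]
    apply Finset.sum_congr rfl
    intro X hX
    rw [← Finset.sum_add_distrib, ← Finset.sum_add_distrib]
    exact Finset.sum_congr rfl (fun Y hY => (key X hX Y hY).2.2.2)
  unfold tup
  rw [e1, e2, e3, e4]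
  simp only [merge, mul, Prod.fst_add, Prod.snd_add]

/-- The octuples of the rooted trees with `k` vertices, `k ≤ 9`. -/
def L : ℕ → List Tup
  | 1 => [(1, 0, 1, 1, 0, 0, 0, 0)]
  | 2 => [(2, 1, 1, 1, 0, 0, 1, 2)]
  | 3 => [(3, 2, 2, 3, 1, 2, 1, 2), (4, 4, 1, 1, 0, 0, 2, 4)]
  | 4 => [(5, 5, 3, 5, 2, 4, 3, 8), (5, 5, 4, 8, 2, 4, 1, 2), (6, 7, 2, 3, 2, 5, 3, 7),
      (8, 12, 1, 1, 0, 0, 3, 6)]
  | 5 => [(8, 10, 5, 10, 5, 12, 5, 14), (8, 10, 6, 13, 5, 12, 4, 12), (9, 12, 4, 8, 6, 16, 4, 10),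
      (9, 13, 5, 10, 3, 6, 6, 18), (9, 13, 8, 20, 3, 6, 1, 2), (10, 15, 3, 5, 4, 10, 6, 16),
      (10, 15, 4, 8, 4, 10, 5, 14), (12, 20, 2, 3, 4, 12, 5, 12), (16, 32, 1, 1, 0, 0, 4, 8)]
  | 6 => [(13, 20, 8, 18, 10, 26, 10, 32), (13, 20, 9, 21, 10, 26, 10, 34),
      (13, 20, 10, 25, 10, 26, 7, 22), (14, 23, 8, 18, 9, 24, 11, 36),
      (14, 23, 9, 22, 9, 24, 8, 24), (14, 23, 10, 25, 9, 24, 8, 26),
      (14, 23, 12, 32, 9, 24, 6, 21), (15, 25, 6, 13, 11, 31, 9, 27),
      (15, 25, 8, 20, 11, 31, 6, 17), (16, 28, 5, 10, 10, 29, 10, 29),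
      (16, 28, 6, 13, 10, 29, 10, 31), (17, 33, 9, 22, 4, 8, 11, 37),
      (17, 33, 16, 48, 4, 8, 1, 2), (18, 33, 4, 8, 12, 38, 8, 22), (18, 35, 5, 10, 6, 15, 11, 33),
      (18, 35, 8, 20, 6, 15, 9, 30), (20, 40, 3, 5, 8, 24, 9, 24), (20, 40, 4, 8, 8, 24, 9, 26),
      (24, 52, 2, 3, 8, 28, 7, 17), (32, 80, 1, 1, 0, 0, 5, 10)]
  | 7 => [(21, 38, 13, 33, 20, 58, 18, 62), (21, 38, 15, 40, 20, 58, 17, 61),
      (21, 38, 16, 44, 20, 58, 15, 54), (22, 41, 13, 33, 20, 60, 19, 66),
      (22, 41, 14, 37, 20, 60, 17, 59), (22, 41, 16, 44, 20, 60, 16, 58),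
      (22, 41, 18, 51, 20, 60, 16, 62), (23, 45, 13, 33, 17, 48, 20, 71),
      (23, 45, 14, 37, 17, 48, 18, 64), (23, 45, 15, 40, 17, 48, 19, 70),
      (23, 45, 18, 53, 17, 48, 11, 36), (23, 45, 20, 60, 17, 48, 11, 40),
      (24, 46, 10, 25, 23, 72, 15, 48), (24, 46, 12, 32, 23, 72, 14, 47),
      (24, 48, 14, 37, 17, 50, 19, 68), (24, 48, 20, 60, 17, 50, 12, 44),
      (25, 50, 9, 21, 20, 60, 18, 60), (25, 50, 12, 32, 20, 60, 15, 52),
      (25, 50, 16, 48, 20, 60, 8, 24), (26, 53, 8, 18, 20, 62, 18, 58),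
      (26, 53, 9, 21, 20, 62, 19, 64), (26, 53, 10, 25, 20, 62, 17, 57),
      (26, 55, 14, 37, 15, 45, 21, 77), (26, 55, 17, 50, 15, 45, 13, 43),
      (26, 55, 18, 53, 15, 45, 14, 49), (26, 55, 24, 76, 15, 45, 10, 41),
      (27, 54, 8, 20, 27, 90, 12, 36), (27, 57, 10, 25, 18, 55, 17, 57),
      (27, 57, 16, 48, 18, 55, 10, 33), (28, 60, 8, 18, 18, 57, 19, 62),
      (28, 60, 9, 22, 18, 57, 17, 55), (28, 60, 10, 25, 18, 57, 18, 61),
      (28, 60, 12, 32, 18, 57, 18, 65), (30, 65, 6, 13, 22, 73, 15, 46),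
      (30, 65, 8, 20, 22, 73, 14, 45), (32, 72, 5, 10, 20, 68, 15, 44),
      (32, 72, 6, 13, 20, 68, 16, 50), (33, 81, 17, 50, 5, 10, 20, 76),
      (33, 81, 32, 112, 5, 10, 1, 2), (34, 83, 9, 22, 8, 20, 20, 68),
      (34, 83, 16, 48, 8, 20, 17, 66), (36, 84, 4, 8, 24, 88, 12, 34),
      (36, 88, 5, 10, 12, 36, 16, 48), (36, 88, 8, 20, 12, 36, 17, 58),
      (40, 100, 3, 5, 16, 56, 12, 32), (40, 100, 4, 8, 16, 56, 13, 38),
      (48, 128, 2, 3, 16, 64, 9, 22), (64, 192, 1, 1, 0, 0, 6, 12)]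
  | 8 => [(34, 71, 21, 59, 38, 120, 33, 124), (34, 71, 24, 70, 38, 120, 33, 130),
      (34, 71, 25, 75, 38, 120, 29, 110), (34, 71, 26, 79, 38, 120, 28, 108),
      (35, 74, 22, 63, 39, 126, 33, 126), (35, 74, 26, 79, 39, 126, 29, 112),
      (35, 74, 27, 81, 39, 126, 35, 145), (36, 78, 21, 59, 37, 119, 35, 133),
      (36, 78, 22, 63, 37, 119, 34, 131), (36, 78, 23, 68, 37, 119, 30, 111),
      (36, 78, 24, 70, 37, 119, 35, 139), (36, 78, 26, 79, 37, 119, 30, 117),
      (36, 78, 28, 88, 37, 119, 26, 101), (36, 78, 30, 95, 37, 119, 28, 114),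
      (37, 82, 21, 59, 35, 112, 36, 138), (37, 82, 23, 68, 35, 112, 31, 116),
      (37, 82, 25, 75, 35, 112, 32, 124), (37, 82, 27, 84, 35, 112, 28, 108),
      (37, 82, 28, 88, 35, 112, 27, 106), (37, 82, 32, 104, 35, 112, 25, 103),
      (38, 85, 22, 63, 36, 118, 36, 140), (38, 85, 23, 68, 36, 118, 32, 120),
      (38, 85, 24, 72, 36, 118, 31, 118), (38, 85, 28, 88, 36, 118, 28, 110),
      (38, 85, 30, 95, 36, 118, 30, 123), (38, 85, 32, 104, 36, 118, 26, 107),
      (39, 86, 16, 44, 43, 144, 28, 100), (39, 86, 18, 51, 43, 144, 29, 108),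
      (39, 86, 20, 60, 43, 144, 24, 86), (40, 90, 15, 40, 41, 137, 30, 107),
      (40, 90, 18, 51, 41, 137, 30, 113), (40, 90, 20, 60, 41, 137, 25, 91),
      (40, 90, 24, 76, 41, 137, 22, 83), (40, 92, 22, 63, 36, 122, 38, 149),
      (40, 92, 26, 81, 36, 122, 29, 111), (40, 92, 28, 88, 36, 122, 30, 119),
      (40, 92, 36, 120, 36, 122, 28, 124), (41, 98, 23, 68, 28, 84, 35, 136),
      (41, 98, 25, 75, 28, 84, 36, 144), (41, 98, 36, 124, 28, 84, 17, 63),
      (42, 97, 13, 33, 40, 136, 31, 108), (42, 97, 15, 40, 40, 136, 32, 116),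
      (42, 97, 16, 44, 40, 136, 31, 114), (42, 97, 16, 44, 41, 141, 30, 109),
      (42, 97, 18, 53, 41, 141, 25, 87), (42, 97, 20, 60, 41, 141, 26, 95),
      (42, 97, 24, 76, 41, 141, 24, 92), (43, 105, 23, 68, 28, 88, 37, 145),
      (43, 105, 26, 81, 28, 88, 32, 127), (43, 105, 27, 84, 28, 88, 34, 137),
      (43, 105, 34, 117, 28, 88, 17, 59), (43, 105, 40, 140, 28, 88, 19, 80),
      (44, 104, 13, 33, 40, 140, 32, 112), (44, 104, 14, 37, 40, 140, 31, 110),
      (44, 104, 16, 44, 40, 140, 32, 118), (44, 104, 18, 51, 40, 140, 34, 131),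
      (44, 108, 24, 72, 29, 94, 37, 147), (44, 108, 26, 81, 29, 94, 33, 131),
      (44, 108, 36, 124, 29, 94, 20, 76), (44, 108, 40, 140, 29, 94, 20, 84),
      (45, 105, 12, 32, 48, 170, 24, 82), (45, 105, 16, 48, 48, 170, 20, 68),
      (45, 110, 15, 40, 33, 107, 33, 121), (45, 110, 20, 60, 33, 107, 29, 111),
      (45, 110, 24, 76, 33, 107, 27, 108), (45, 110, 32, 112, 33, 107, 12, 40),
      (46, 113, 13, 33, 34, 113, 33, 117), (46, 113, 14, 37, 34, 113, 32, 115),
      (46, 113, 15, 40, 34, 113, 34, 125), (46, 113, 18, 53, 34, 113, 29, 107),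
      (46, 113, 20, 60, 34, 113, 31, 120), (48, 116, 10, 25, 46, 167, 25, 83),
      (48, 116, 12, 32, 46, 167, 26, 91), (48, 120, 14, 37, 34, 117, 33, 119),
      (48, 120, 20, 60, 34, 117, 32, 124), (50, 125, 9, 21, 40, 140, 27, 90),
      (50, 125, 12, 32, 40, 140, 27, 96), (50, 125, 16, 48, 40, 140, 24, 88),
      (50, 131, 26, 81, 25, 86, 39, 160), (50, 131, 33, 114, 25, 86, 22, 82),
      (50, 131, 34, 117, 25, 86, 24, 92), (50, 131, 48, 176, 25, 86, 18, 85),
      (51, 133, 18, 53, 29, 99, 31, 116), (51, 133, 32, 112, 29, 99, 18, 69),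
      (52, 132, 8, 18, 40, 144, 26, 84), (52, 132, 9, 21, 40, 144, 28, 94),
      (52, 132, 10, 25, 40, 144, 27, 92), (52, 136, 14, 37, 30, 105, 35, 128),
      (52, 136, 17, 50, 30, 105, 30, 110), (52, 136, 18, 53, 30, 105, 32, 120),
      (52, 136, 24, 76, 30, 105, 34, 141), (54, 135, 8, 20, 54, 207, 20, 64),
      (54, 141, 10, 25, 36, 128, 27, 92), (54, 141, 16, 48, 36, 128, 26, 97),
      (56, 148, 8, 18, 36, 132, 27, 88), (56, 148, 9, 22, 36, 132, 26, 86),
      (56, 148, 10, 25, 36, 132, 28, 96), (56, 148, 12, 32, 36, 132, 30, 109),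
      (60, 160, 6, 13, 44, 168, 21, 65), (60, 160, 8, 20, 44, 168, 22, 73),
      (64, 176, 5, 10, 40, 156, 20, 59), (64, 176, 6, 13, 40, 156, 22, 69),
      (65, 193, 33, 114, 6, 12, 37, 159), (65, 193, 64, 256, 6, 12, 1, 2),
      (66, 195, 17, 50, 10, 25, 37, 143), (66, 195, 32, 112, 10, 25, 33, 146),
      (68, 200, 9, 22, 16, 48, 29, 99), (68, 200, 16, 48, 16, 48, 33, 130),
      (72, 204, 4, 8, 48, 200, 16, 46), (72, 212, 5, 10, 24, 84, 21, 63),
      (72, 212, 8, 20, 24, 84, 25, 86), (80, 240, 3, 5, 32, 128, 15, 40),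
      (80, 240, 4, 8, 32, 128, 17, 50), (96, 304, 2, 3, 32, 144, 11, 27),
      (128, 448, 1, 1, 0, 0, 7, 14)]
  | 9 => [(55, 130, 34, 105, 71, 244, 59, 238), (55, 130, 39, 125, 71, 244, 59, 247),
      (55, 130, 40, 130, 71, 244, 56, 233), (55, 130, 42, 139, 71, 244, 53, 222),
      (57, 137, 35, 109, 72, 252, 61, 250), (57, 137, 36, 114, 72, 252, 58, 236),
      (57, 137, 39, 125, 72, 252, 61, 256), (57, 137, 42, 139, 72, 252, 55, 231),
      (57, 137, 44, 148, 72, 252, 53, 226), (57, 137, 45, 150, 72, 252, 60, 262),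
      (58, 141, 34, 105, 71, 250, 62, 252), (58, 141, 36, 114, 71, 250, 59, 241),
      (58, 141, 37, 119, 71, 250, 56, 227), (58, 141, 40, 130, 71, 250, 59, 247),
      (58, 141, 42, 139, 71, 250, 56, 236), (58, 141, 42, 139, 71, 250, 57, 242),
      (58, 141, 44, 148, 71, 250, 54, 231), (58, 141, 48, 164, 71, 250, 56, 248),
      (59, 146, 34, 105, 67, 230, 63, 258), (59, 146, 36, 114, 67, 230, 60, 247),
      (59, 146, 39, 125, 67, 230, 63, 267), (59, 146, 46, 159, 67, 230, 47, 193),
      (59, 146, 50, 175, 67, 230, 49, 210), (60, 148, 36, 114, 72, 258, 61, 250),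
      (60, 148, 38, 123, 72, 258, 58, 239), (60, 148, 44, 148, 72, 258, 56, 240),
      (60, 148, 48, 164, 72, 258, 58, 257), (60, 150, 34, 105, 66, 228, 64, 263),
      (60, 150, 37, 119, 66, 228, 58, 238), (60, 150, 40, 130, 66, 228, 61, 258),
      (60, 150, 42, 139, 66, 228, 59, 253), (60, 150, 45, 155, 66, 228, 48, 195),
      (60, 150, 46, 159, 66, 228, 48, 198), (60, 150, 52, 184, 66, 228, 48, 210),
      (61, 153, 35, 109, 68, 238, 65, 270), (61, 153, 38, 123, 68, 238, 59, 245),
      (61, 153, 45, 150, 68, 238, 64, 282), (61, 153, 46, 159, 68, 238, 49, 202),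
      (61, 153, 52, 184, 68, 238, 49, 214), (62, 155, 35, 109, 74, 271, 66, 273),
      (62, 155, 40, 132, 74, 271, 58, 243), (62, 155, 44, 148, 74, 271, 58, 249),
      (62, 155, 54, 189, 74, 271, 62, 289), (62, 157, 36, 114, 67, 236, 63, 261),
      (62, 157, 37, 119, 67, 236, 60, 247), (62, 157, 38, 123, 67, 236, 60, 250),
      (62, 157, 42, 139, 67, 236, 61, 262), (62, 157, 48, 168, 67, 236, 48, 202),
      (62, 157, 50, 175, 67, 236, 52, 224), (62, 157, 52, 184, 67, 236, 50, 219),
      (63, 156, 26, 79, 81, 294, 49, 188), (63, 156, 30, 95, 81, 294, 49, 194),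
      (63, 156, 32, 104, 81, 294, 46, 183), (64, 160, 25, 75, 80, 292, 50, 190),
      (64, 160, 30, 95, 80, 292, 50, 199), (64, 160, 36, 120, 80, 292, 48, 200),
      (64, 166, 36, 114, 63, 220, 65, 272), (64, 166, 37, 119, 63, 220, 62, 258),
      (64, 166, 40, 130, 63, 220, 65, 278), (64, 166, 41, 139, 63, 220, 51, 203),
      (64, 166, 46, 159, 63, 220, 52, 218), (64, 166, 54, 195, 63, 220, 46, 199),
      (64, 166, 56, 204, 63, 220, 44, 194), (65, 165, 24, 70, 76, 272, 54, 210),
      (65, 165, 27, 81, 76, 272, 57, 230), (65, 165, 30, 95, 76, 272, 51, 205),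
      (65, 165, 32, 104, 76, 272, 48, 194), (65, 165, 36, 120, 76, 272, 49, 206),
      (65, 165, 40, 140, 76, 272, 38, 151), (65, 170, 37, 119, 62, 218, 63, 263),
      (65, 170, 45, 155, 62, 218, 53, 220), (65, 170, 56, 204, 62, 218, 45, 199),
      (66, 167, 26, 79, 82, 305, 51, 197), (66, 167, 28, 88, 82, 305, 48, 186),
      (66, 167, 32, 104, 82, 305, 48, 192), (66, 167, 36, 120, 82, 305, 50, 209),
      (66, 173, 36, 114, 65, 233, 67, 281), (66, 173, 38, 123, 64, 228, 64, 270),
      (66, 173, 40, 132, 65, 233, 62, 265), (66, 173, 41, 139, 64, 228, 53, 212),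
      (66, 173, 42, 139, 65, 233, 65, 282), (66, 173, 43, 148, 65, 233, 51, 207),
      (66, 173, 46, 159, 65, 233, 54, 227), (66, 173, 50, 175, 64, 228, 56, 244),
      (66, 173, 52, 188, 65, 233, 44, 186), (66, 173, 56, 204, 64, 228, 46, 203),
      (66, 173, 60, 220, 65, 233, 50, 231), (68, 176, 21, 59, 76, 278, 54, 204),
      (68, 176, 24, 70, 76, 278, 57, 224), (68, 176, 25, 75, 76, 278, 54, 210),
      (68, 176, 26, 79, 76, 278, 54, 213), (68, 180, 38, 123, 66, 241, 66, 279),
      (68, 180, 40, 132, 66, 241, 64, 274), (68, 180, 44, 152, 66, 241, 53, 219),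
      (68, 180, 48, 168, 66, 241, 54, 231), (68, 180, 56, 204, 66, 241, 48, 212),
      (68, 180, 60, 220, 66, 241, 52, 240), (69, 181, 26, 79, 74, 269, 53, 208),
      (69, 181, 28, 88, 74, 269, 50, 197), (69, 181, 30, 95, 74, 269, 53, 214),
      (69, 181, 36, 124, 74, 269, 40, 154), (69, 181, 40, 140, 74, 269, 42, 171),
      (69, 186, 37, 119, 60, 215, 67, 283), (69, 186, 43, 148, 60, 215, 54, 223),
      (69, 186, 45, 155, 60, 215, 57, 240), (69, 186, 51, 184, 60, 215, 47, 199),
      (69, 186, 52, 188, 60, 215, 47, 202), (69, 186, 64, 240, 60, 215, 45, 211),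
      (70, 183, 22, 63, 78, 291, 55, 211), (70, 183, 26, 79, 78, 291, 55, 217),
      (70, 183, 27, 81, 78, 291, 62, 253), (70, 185, 24, 70, 73, 267, 57, 224),
      (70, 185, 27, 84, 73, 267, 51, 199), (70, 185, 30, 95, 73, 267, 54, 219),
      (70, 185, 32, 104, 73, 267, 52, 214), (70, 185, 36, 120, 73, 267, 54, 231),
      (70, 185, 36, 124, 73, 267, 41, 159), (70, 185, 40, 140, 73, 267, 42, 171),
      (70, 185, 48, 176, 73, 267, 36, 152), (70, 189, 38, 123, 62, 225, 68, 290),
      (70, 189, 43, 148, 62, 225, 55, 227), (70, 189, 44, 152, 62, 225, 55, 230),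
      (70, 189, 52, 188, 62, 225, 48, 206), (70, 189, 54, 195, 62, 225, 52, 228),
      (70, 189, 64, 240, 62, 225, 46, 215), (72, 186, 20, 60, 93, 356, 40, 146),
      (72, 186, 24, 76, 93, 356, 40, 152), (72, 192, 21, 59, 74, 275, 56, 213),
      (72, 192, 22, 63, 74, 275, 56, 216), (72, 192, 23, 68, 74, 275, 53, 202),
      (72, 192, 24, 70, 74, 275, 59, 233), (72, 192, 26, 79, 74, 275, 56, 222),
      (72, 192, 28, 88, 74, 275, 54, 217), (72, 192, 28, 88, 75, 280, 52, 206),
      (72, 192, 30, 95, 74, 275, 58, 239), (72, 192, 40, 140, 75, 280, 44, 180),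
      (72, 194, 25, 75, 69, 251, 55, 215), (72, 194, 30, 95, 69, 251, 56, 230),
      (72, 194, 40, 140, 69, 251, 45, 187), (72, 194, 48, 176, 69, 251, 38, 163),
      (74, 201, 21, 59, 70, 259, 57, 218), (74, 201, 23, 68, 70, 259, 54, 207),
      (74, 201, 25, 75, 70, 259, 57, 224), (74, 201, 27, 84, 70, 259, 55, 219),
      (74, 201, 28, 88, 70, 259, 55, 222), (74, 201, 32, 104, 70, 259, 57, 239),
      (75, 200, 18, 51, 85, 320, 45, 168), (75, 200, 24, 76, 85, 320, 42, 163),
      (75, 200, 32, 112, 85, 320, 32, 120), (76, 208, 22, 63, 72, 272, 58, 225),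
      (76, 208, 23, 68, 72, 272, 55, 211), (76, 208, 24, 72, 72, 272, 55, 214),
      (76, 208, 28, 88, 72, 272, 56, 226), (76, 208, 30, 95, 72, 272, 60, 248),
      (76, 208, 32, 104, 72, 272, 58, 243), (76, 212, 40, 132, 64, 246, 72, 314),
      (76, 212, 50, 181, 64, 246, 51, 218), (76, 212, 52, 188, 64, 246, 54, 235),
      (76, 212, 72, 276, 64, 246, 52, 260), (77, 222, 41, 139, 45, 147, 64, 272),
      (77, 222, 43, 148, 45, 147, 62, 267), (77, 222, 45, 155, 45, 147, 65, 284),
      (77, 222, 68, 268, 45, 147, 25, 95), (77, 222, 72, 284, 45, 147, 29, 123),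
      (78, 211, 16, 44, 86, 331, 44, 160), (78, 211, 18, 51, 86, 331, 47, 177),
      (78, 211, 20, 60, 86, 331, 44, 166), (78, 217, 28, 88, 71, 272, 56, 226),
      (78, 217, 34, 117, 71, 272, 43, 166), (78, 217, 36, 124, 71, 272, 46, 183),
      (78, 217, 48, 176, 71, 272, 44, 192), (80, 220, 15, 40, 82, 315, 45, 162),
      (80, 220, 18, 51, 82, 315, 48, 182), (80, 220, 20, 60, 82, 315, 45, 171),
      (80, 220, 24, 76, 82, 315, 46, 183), (80, 224, 22, 63, 72, 280, 60, 234),
      (80, 224, 26, 81, 72, 280, 55, 218), (80, 224, 28, 88, 72, 280, 58, 235),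
      (80, 224, 36, 120, 72, 280, 64, 280), (80, 232, 44, 152, 49, 170, 65, 283),
      (80, 232, 72, 284, 49, 170, 32, 136), (81, 216, 16, 48, 108, 432, 32, 112),
      (81, 225, 20, 60, 81, 312, 44, 166), (81, 225, 32, 112, 81, 312, 36, 140),
      (81, 234, 25, 75, 54, 186, 60, 240), (81, 234, 40, 140, 54, 186, 53, 231),
      (81, 234, 64, 256, 54, 186, 16, 56), (82, 237, 23, 68, 56, 196, 58, 227),
      (82, 237, 25, 75, 56, 196, 61, 244), (82, 237, 36, 124, 56, 196, 53, 223),
      (83, 245, 43, 148, 47, 168, 68, 296), (83, 245, 50, 181, 47, 168, 58, 258),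
      (83, 245, 51, 184, 47, 168, 61, 272), (83, 245, 66, 261, 47, 168, 27, 102),
      (83, 245, 80, 320, 47, 168, 35, 168), (84, 236, 13, 33, 80, 312, 44, 154),
      (84, 236, 15, 40, 80, 312, 47, 171), (84, 236, 16, 44, 80, 312, 47, 174),
      (84, 236, 16, 44, 82, 323, 46, 169), (84, 236, 18, 53, 82, 323, 43, 158),
      (84, 236, 20, 60, 82, 323, 46, 175), (84, 236, 24, 76, 82, 323, 48, 192),
      (84, 248, 44, 152, 49, 178, 69, 303), (84, 248, 50, 181, 49, 178, 59, 262),
      (84, 248, 68, 268, 49, 178, 32, 128), (84, 248, 80, 320, 49, 178, 36, 172),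
      (85, 250, 27, 84, 54, 194, 60, 244), (85, 250, 36, 124, 54, 194, 53, 223),
      (85, 250, 48, 176, 54, 194, 51, 232), (85, 250, 64, 256, 54, 194, 20, 76),
      (86, 253, 23, 68, 56, 204, 60, 236), (86, 253, 26, 81, 56, 204, 58, 234),
      (86, 253, 27, 84, 56, 204, 61, 248), (86, 253, 34, 117, 56, 204, 51, 210),
      (86, 253, 40, 140, 56, 204, 59, 260), (88, 252, 13, 33, 80, 320, 45, 158),
      (88, 252, 14, 37, 80, 320, 45, 161), (88, 252, 16, 44, 80, 320, 48, 178),
      (88, 252, 18, 51, 80, 320, 52, 200), (88, 260, 24, 72, 58, 217, 61, 243),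
      (88, 260, 26, 81, 58, 217, 59, 238), (88, 260, 36, 124, 58, 217, 56, 236),
      (88, 260, 40, 140, 58, 217, 60, 264), (90, 255, 12, 32, 96, 388, 36, 126),
      (90, 255, 16, 48, 96, 388, 36, 132), (90, 265, 15, 40, 66, 247, 48, 176),
      (90, 265, 20, 60, 66, 247, 49, 191), (90, 265, 24, 76, 66, 247, 51, 208),
      (90, 265, 32, 112, 66, 247, 44, 184), (92, 272, 13, 33, 68, 260, 46, 163),
      (92, 272, 14, 37, 68, 260, 46, 166), (92, 272, 15, 40, 68, 260, 49, 180),
      (92, 272, 18, 53, 68, 260, 47, 178), (92, 272, 20, 60, 68, 260, 51, 200),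
      (96, 280, 10, 25, 92, 380, 35, 118), (96, 280, 12, 32, 92, 380, 38, 135),
      (96, 288, 14, 37, 68, 268, 47, 170), (96, 288, 20, 60, 68, 268, 52, 204),
      (98, 307, 50, 181, 43, 171, 73, 335), (98, 307, 65, 258, 43, 171, 39, 165),
      (98, 307, 66, 261, 43, 171, 42, 179), (98, 307, 96, 400, 43, 171, 34, 181),
      (99, 309, 34, 117, 48, 187, 57, 239), (99, 309, 64, 256, 48, 187, 34, 149),
      (100, 300, 9, 21, 80, 320, 36, 120), (100, 300, 12, 32, 80, 320, 39, 140),
      (100, 300, 16, 48, 80, 320, 40, 152), (100, 312, 26, 81, 50, 197, 65, 267),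
      (100, 312, 33, 114, 50, 197, 55, 229), (100, 312, 34, 117, 50, 197, 58, 243),
      (100, 312, 48, 176, 50, 197, 66, 309), (102, 317, 18, 53, 58, 227, 49, 187),
      (102, 317, 32, 112, 58, 227, 50, 213), (104, 316, 8, 18, 80, 328, 34, 110),
      (104, 316, 9, 21, 80, 328, 37, 124), (104, 316, 10, 25, 80, 328, 37, 127),
      (104, 324, 14, 37, 60, 240, 49, 179), (104, 324, 17, 50, 60, 240, 47, 177),
      (104, 324, 18, 53, 60, 240, 50, 191), (104, 324, 24, 76, 60, 240, 58, 241),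
      (108, 324, 8, 20, 108, 468, 28, 92), (108, 336, 10, 25, 72, 292, 37, 127),
      (108, 336, 16, 48, 72, 292, 42, 161), (112, 352, 8, 18, 72, 300, 35, 114),
      (112, 352, 9, 22, 72, 300, 35, 117), (112, 352, 10, 25, 72, 300, 38, 131),
      (112, 352, 12, 32, 72, 300, 42, 153), (120, 380, 6, 13, 88, 380, 27, 84),
      (120, 380, 8, 20, 88, 380, 30, 101), (128, 416, 5, 10, 80, 352, 25, 74),
      (128, 416, 6, 13, 80, 352, 28, 88), (129, 449, 65, 258, 7, 14, 70, 338),
      (129, 449, 128, 576, 7, 14, 1, 2), (130, 451, 33, 114, 12, 30, 70, 306),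
      (130, 451, 64, 256, 12, 30, 65, 322), (132, 456, 17, 50, 20, 60, 54, 210),
      (132, 456, 32, 112, 20, 60, 65, 290), (136, 468, 9, 22, 32, 112, 38, 130),
      (136, 468, 16, 48, 32, 112, 49, 194), (144, 480, 4, 8, 96, 448, 20, 58),
      (144, 496, 5, 10, 48, 192, 26, 78), (144, 496, 8, 20, 48, 192, 33, 114),
      (160, 560, 3, 5, 64, 288, 18, 48), (160, 560, 4, 8, 64, 288, 21, 62),
      (192, 704, 2, 3, 64, 320, 13, 32), (256, 1024, 1, 1, 0, 0, 8, 16)]
  | _ => []

/-- The lists are closed under gluing. -/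
def closed : Bool := (List.range 9).all fun i => (List.range 9).all fun j =>
  !(decide (1 ≤ i) && decide (1 ≤ j) && decide (i + j ≤ 9)) ||
    (L i).all fun x => (L j).all fun y => decide (merge x y ∈ L (i + j))

theorem closed_true : closed = true := by decide +kernel

theorem merge_mem {i j : ℕ} (hi : 1 ≤ i) (hj : 1 ≤ j) (hij : i + j ≤ 9) {x y : Tup}
    (hx : x ∈ L i) (hy : y ∈ L j) : merge x y ∈ L (i + j) := by
  have h := closed_true
  rw [closed, List.all_eq_true] at h
  have h1 := h i (List.mem_range.2 (by omega))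
  rw [List.all_eq_true] at h1
  have h2 := h1 j (List.mem_range.2 (by omega))
  simp only [hi, hj, hij, decide_true, Bool.and_self, Bool.not_true, Bool.false_or,
    List.all_eq_true, decide_eq_true_eq] at h2
  exact h2 x hx y hy

theorem RT.tup_mem [DecidableEq V] {G : SimpleGraph V} {A : Finset V} {r : V} (h : RT G A r) :
    A.card ≤ 9 → tup G A r ∈ L A.card := by
  induction h with
  | single r =>
    intro _
    rw [tup_single]
    simp [L]
  | @glue A B r c hA hB hdisj hrc hcross ihA ihB =>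
    intro hcard
    rw [Finset.card_union_of_disjoint hdisj] at hcard ⊢
    have h1 : 1 ≤ A.card := Finset.card_pos.2 ⟨r, hA.root_mem⟩
    have h2 : 1 ≤ B.card := Finset.card_pos.2 ⟨c, hB.root_mem⟩
    rw [tup_glue hdisj hA.root_mem hrc hcross]
    exact merge_mem h1 h2 hcard (ihA (by omega)) (ihB (by omega))

/-- The inequality to be checked, for `m = n - 3`. -/
def good (m : ℕ) (x : Tup) : Bool :=
  decide (2 * (x.2.2.2.2.2.1 + x.2.2.2.2.2.2.2) * (2 ^ m + 2 * m + 1) ≤
    (m * 2 ^ m + 4 * 2 ^ m + 10 * m + 4) * (x.2.2.2.2.1 + x.2.2.2.2.2.2.1))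

theorem good_true : ((List.range 10).all fun n => !(decide (4 ≤ n)) ||
    (L n).all (fun x => good (n - 3) x)) = true := by decide +kernel

theorem sigma1_tup [Fintype V] [DecidableEq V] (G : SimpleGraph V) (r : V) :
    sigma1 G = (tup G univ r).2.2.2.2.1 + (tup G univ r).2.2.2.2.2.2.1 := by
  classical
  simp only [tup, cs, wt, Prod.fst_sum]
  rw [← Finset.sum_add_distrib, sigma1, nearSets, Finset.card_filter, Finset.powerset_univ]
  apply Finset.sum_congr rfl
  intro X _
  rw [nearly_iff_E2]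
  by_cases h1 : r ∈ X <;> by_cases h2 : E2 G X = 2 <;> simp [h1, h2]

theorem total1_tup [Fintype V] [DecidableEq V] (G : SimpleGraph V) (r : V) :
    total1 G = (tup G univ r).2.2.2.2.2.1 + (tup G univ r).2.2.2.2.2.2.2 := by
  classical
  simp only [tup, cs, wt, Prod.snd_sum]
  rw [← Finset.sum_add_distrib, total1, nearSets, Finset.sum_filter, Finset.powerset_univ]
  apply Finset.sum_congr rfl
  intro X _
  rw [nearly_iff_E2]
  by_cases h1 : r ∈ X <;> by_cases h2 : E2 G X = 2 <;> simp [h1, h2]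

/-- The inequality for trees with between four and nine vertices. -/
theorem small_bound [Fintype V] [DecidableEq V] {T : SimpleGraph V} (hT : T.IsTree) (m : ℕ)
    (hm : m + 3 = Fintype.card V) (h1 : 4 ≤ Fintype.card V) (h2 : Fintype.card V ≤ 9) :
    2 * total1 T * (2 ^ m + 2 * m + 1) ≤ (m * 2 ^ m + 4 * 2 ^ m + 10 * m + 4) * sigma1 T := by
  obtain ⟨r⟩ := hT.connected.nonempty
  have h := (tree_RT _ V T hT rfl r).tup_mem (by rw [Finset.card_univ]; exact h2)
  rw [Finset.card_univ] at h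
  have hg := good_true
  rw [List.all_eq_true] at hg
  have hg1 := hg (Fintype.card V) (List.mem_range.2 (by omega))
  simp only [h1, decide_true, Bool.not_true, Bool.false_or, List.all_eq_true] at hg1
  have hg2 := hg1 _ h
  rw [sigma1_tup T r, total1_tup T r]
  have hm' : Fintype.card V - 3 = m := by omega
  rw [hm', good, decide_eq_true_eq] at hg2
  exact hg2

end H269Av1
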