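import Pool.Agent.H269Av1.Basic

/-!
# 1-nearly independent sets: the tree `R_n`
-/

namespace H269Av1

open Finset

variable {V : Type}

/-- `G` is the tree `R_n`: centre `w`, adjacent to everything except itself and `u`; and `v` is
adjacent to `u`. -/
structure Shape (G : SimpleGraph V) (w v u : V) : Prop where
  wv : w ≠ v
  wu : w ≠ u
  vu : v ≠ u
  adj : ∀ x y, G.Adj x y ↔ (x = w ∧ y ≠ w ∧ y ≠ u) ∨ (y = w ∧ x ≠ w ∧ x ≠ u) ∨
    (x = v ∧ y = u) ∨ (x = u ∧ y = v)

theorem Shape.E2 [DecidableEq V] {G : SimpleGraph V} {w v u : V} (h : Shape G w v u)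
    (S : Finset V) : E2 G S = 2 * ((if w ∈ S then (S \ {w, u}).card else 0) +
      (if v ∈ S ∧ u ∈ S then 1 else 0)) := by
  classical
  have hpt : ∀ x y : V, (if G.Adj x y then 1 else 0) =
      (((if x = w then (if y ≠ w ∧ y ≠ u then 1 else 0) else 0) +
        (if y = w then (if x ≠ w ∧ x ≠ u then 1 else 0) else 0)) +
      ((if x = v then (if y = u then 1 else 0) else 0) +
        (if x = u then (if y = v then 1 else 0) else 0)) : ℕ) := by
    intro x y
    have hwv := h.wv
    have hwu := h.wu
    have hvu := h.vu
    by_cases hx : x = w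
    · subst hx
      by_cases hy : y = x
      · subst hy
        simp [h.adj, hwv, hwu]
      · by_cases hyu : y = u
        · subst hyu
          simp [h.adj, hwv, hy, hwu]
        · simp [h.adj, hwv, hwu, hy, hyu]
    · by_cases hy : y = w
      · subst hy
        by_cases hxu : x = u
        · subst hxu
          simp [h.adj, hwv, hwu, hx]
        · simp [h.adj, hwv, hwu, hx, hxu]
      · by_cases hxv : x = v
        · subst hxv
          simp [h.adj, hx, hy, hvu]
        · by_cases hxu : x = u
          · subst hxu
            simp [h.adj, hx, hy, hxv]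
          · simp [h.adj, hx, hy, hxv, hxu]
  unfold H269Av1.E2
  have e : ∀ x ∈ S, ∀ y ∈ S, (if G.Adj x y then 1 else 0) =
      (((if x = w then (if y ≠ w ∧ y ≠ u then 1 else 0) else 0) +
        (if y = w then (if x ≠ w ∧ x ≠ u then 1 else 0) else 0)) +
      ((if x = v then (if y = u then 1 else 0) else 0) +
        (if x = u then (if y = v then 1 else 0) else 0)) : ℕ) := fun x _ y _ => hpt x y
  have hcard : ∑ y ∈ S, (if y ≠ w ∧ y ≠ u then 1 else 0) = (S \ {w, u}).card := by
    rw [← Finset.card_filter]
    congr 1
    ext y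
    simp
  calc ∑ x ∈ S, ∑ y ∈ S, (if G.Adj x y then 1 else 0)
      = ∑ x ∈ S, ∑ y ∈ S, (((if x = w then (if y ≠ w ∧ y ≠ u then 1 else 0) else 0) +
        (if y = w then (if x ≠ w ∧ x ≠ u then 1 else 0) else 0)) +
      ((if x = v then (if y = u then 1 else 0) else 0) +
        (if x = u then (if y = v then 1 else 0) else 0)) : ℕ) :=
        Finset.sum_congr rfl (fun x hx => Finset.sum_congr rfl (fun y hy => e x hx y hy))
    _ = (∑ x ∈ S, ∑ y ∈ S, (if x = w then (if y ≠ w ∧ y ≠ u then 1 else 0) else 0) +
        ∑ x ∈ S, ∑ y ∈ S, (if y = w then (if x ≠ w ∧ x ≠ u then 1 else 0) else 0)) +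
        (∑ x ∈ S, ∑ y ∈ S, (if x = v then (if y = u then 1 else 0) else 0) +
        ∑ x ∈ S, ∑ y ∈ S, (if x = u then (if y = v then 1 else 0) else 0)) := by
        simp only [Finset.sum_add_distrib]
    _ = _ := by
        have s1 : ∑ x ∈ S, ∑ y ∈ S, (if x = w then (if y ≠ w ∧ y ≠ u then 1 else 0) else 0) =
            (if w ∈ S then (S \ {w, u}).card else 0) := by
          have : ∀ x ∈ S, ∑ y ∈ S, (if x = w then (if y ≠ w ∧ y ≠ u then 1 else 0) else 0) =
              (if x = w then (S \ {w, u}).card else 0) := by
            intro x _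
            by_cases hx : x = w
            · simp only [hx, if_true]
              exact hcard
            · simp [hx]
          rw [Finset.sum_congr rfl this, Finset.sum_ite_eq']
        have s2 : ∑ x ∈ S, ∑ y ∈ S, (if y = w then (if x ≠ w ∧ x ≠ u then 1 else 0) else 0) =
            (if w ∈ S then (S \ {w, u}).card else 0) := by
          rw [Finset.sum_comm]
          exact s1
        have s3 : ∑ x ∈ S, ∑ y ∈ S, (if x = v then (if y = u then 1 else 0) else 0) =
            (if v ∈ S ∧ u ∈ S then 1 else 0) := by
          have : ∀ x ∈ S, ∑ y ∈ S, (if x = v then (if y = u then 1 else 0) else 0) =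
              (if x = v then (if u ∈ S then 1 else 0) else 0) := by
            intro x _
            by_cases hx : x = v
            · simp only [hx, if_true]
              rw [Finset.sum_ite_eq']
            · simp [hx]
          rw [Finset.sum_congr rfl this, Finset.sum_ite_eq']
          by_cases h1 : v ∈ S <;> by_cases h2 : u ∈ S <;> simp [h1, h2]
        have s4 : ∑ x ∈ S, ∑ y ∈ S, (if x = u then (if y = v then 1 else 0) else 0) =
            (if v ∈ S ∧ u ∈ S then 1 else 0) := by
          rw [Finset.sum_comm]
          rw [← s3]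
          apply Finset.sum_congr rfl
          intro x _
          apply Finset.sum_congr rfl
          intro y _
          by_cases h1 : x = v <;> by_cases h2 : y = u <;> simp [h1, h2]
        rw [s1, s2, s3, s4]
        ring

theorem Shape.near [DecidableEq V] {G : SimpleGraph V} {w v u : V} (h : Shape G w v u)
    (S : Finset V) : NearlyIndep G S ↔ ((if w ∈ S then (S \ {w, u}).card else 0) +
      (if v ∈ S ∧ u ∈ S then 1 else 0)) = 1 := by
  rw [nearly_iff_E2, h.E2]
  omega

theorem sum_powerset_card_eq [DecidableEq V] (L : Finset V) :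
    2 * ∑ X ∈ L.powerset, X.card = L.card * 2 ^ L.card := by
  induction L using Finset.induction with
  | empty => simp
  | insert a L ha ih =>
    rw [Finset.sum_powerset_insert ha]
    have : ∀ X ∈ L.powerset, (insert a X).card = X.card + 1 := by
      intro X hX
      rw [Finset.card_insert_of_notMem]
      intro h
      exact ha (Finset.mem_powerset.1 hX h)
    rw [Finset.sum_congr rfl this, Finset.sum_add_distrib, Finset.card_insert_of_notMem ha]
    simp only [Finset.sum_const, Finset.card_powerset, smul_eq_mul, mul_one]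
    rw [pow_succ]
    linarith

theorem Shape.sum [Fintype V] [DecidableEq V] {G : SimpleGraph V} {w v u : V}
    (h : Shape G w v u) (f : ℕ → ℕ) :
    ∑ S ∈ nearSets G, f S.card =
      ∑ X ∈ (univ \ {w, v, u} : Finset V).powerset, f (X.card + 2) +
        (univ \ {w, v, u} : Finset V).card * (f 2 + f 3) + f 2 := by
  classical
  set L := (univ \ {w, v, u} : Finset V) with hL
  have hwv := h.wv
  have hwu := h.wu
  have hvu := h.vu
  have hwL : w ∉ L := by simp [hL]
  have hvL : v ∉ L := by simp [hL]
  have huL : u ∉ L := by simp [hL]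
  have huniv : (univ : Finset V) = insert w (insert v (insert u L)) := by
    ext x
    simp only [hL, Finset.mem_univ, Finset.mem_insert, Finset.mem_sdiff, Finset.mem_singleton,
      true_and, true_iff]
    tauto
  have h1 : u ∉ L := huL
  have h2 : v ∉ insert u L := by simp [hvu, hvL]
  have h3 : w ∉ insert v (insert u L) := by simp [hwv, hwu, hwL]
  have e0 : ∑ S ∈ nearSets G, f S.card =
      ∑ S ∈ (univ : Finset V).powerset, (if NearlyIndep G S then f S.card else 0) := by
    rw [nearSets, Finset.sum_filter, Finset.powerset_univ]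
  rw [e0, huniv, Finset.sum_powerset_insert h3, Finset.sum_powerset_insert h2,
    Finset.sum_powerset_insert h2, Finset.sum_powerset_insert h1, Finset.sum_powerset_insert h1,
    Finset.sum_powerset_insert h1, Finset.sum_powerset_insert h1]
  -- eight sums
  have hX : ∀ X ∈ L.powerset, w ∉ X ∧ v ∉ X ∧ u ∉ X := by
    intro X hX
    have := Finset.mem_powerset.1 hX
    exact ⟨fun h => hwL (this h), fun h => hvL (this h), fun h => huL (this h)⟩
  have t1 : ∑ X ∈ L.powerset, (if NearlyIndep G X then f X.card else 0) = 0 := by
    apply Finset.sum_eq_zero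
    intro X hX'
    obtain ⟨a, b, c⟩ := hX X hX'
    rw [h.near]
    simp [a, b]
  have t2 : ∑ X ∈ L.powerset, (if NearlyIndep G (insert u X) then f (insert u X).card else 0)
      = 0 := by
    apply Finset.sum_eq_zero
    intro X hX'
    obtain ⟨a, b, c⟩ := hX X hX'
    rw [h.near]
    simp [a, b, hwu, hvu]
  have t3 : ∑ X ∈ L.powerset, (if NearlyIndep G (insert v X) then f (insert v X).card else 0)
      = 0 := by
    apply Finset.sum_eq_zero
    intro X hX'
    obtain ⟨a, b, c⟩ := hX X hX'
    rw [h.near]
    simp [a, c, hwv, hvu.symm]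
  have t4 : ∑ X ∈ L.powerset, (if NearlyIndep G (insert v (insert u X)) then
      f (insert v (insert u X)).card else 0) = ∑ X ∈ L.powerset, f (X.card + 2) := by
    apply Finset.sum_congr rfl
    intro X hX'
    obtain ⟨a, b, c⟩ := hX X hX'
    rw [h.near]
    have hc : (insert v (insert u X)).card = X.card + 2 := by
      rw [Finset.card_insert_of_notMem, Finset.card_insert_of_notMem c]
      simp [hvu, b]
    rw [hc]
    simp [a, hwv, hwu]
  have hone : ∀ g : ℕ, ∑ X ∈ L.powerset, (if X.card = 1 then g else 0) = L.card * g := by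
    intro g
    rw [← Finset.sum_filter]
    have : L.powerset.filter (fun X => X.card = 1) = L.powersetCard 1 := by
      ext X
      simp [Finset.mem_powersetCard]
    rw [this, Finset.sum_const, Finset.card_powersetCard, Nat.choose_one_right, smul_eq_mul]
  have t5 : ∑ X ∈ L.powerset, (if NearlyIndep G (insert w X) then f (insert w X).card else 0)
      = L.card * f 2 := by
    rw [← hone]
    apply Finset.sum_congr rfl
    intro X hX'
    obtain ⟨a, b, c⟩ := hX X hX'
    rw [h.near]
    have hc : (insert w X).card = X.card + 1 := Finset.card_insert_of_notMem a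
    have hd : (insert w X) \ {w, u} = X := by
      ext x
      simp only [Finset.mem_sdiff, Finset.mem_insert, Finset.mem_singleton, not_or]
      constructor
      · rintro ⟨rfl | hx, hx'⟩
        · exact absurd rfl hx'.1
        · exact hx
      · intro hx
        refine ⟨Or.inr hx, ?_, ?_⟩
        · rintro rfl; exact a hx
        · rintro rfl; exact c hx
    have hv : v ∉ insert w X := by simp [hwv.symm, b]
    rw [hc, hd]
    simp only [Finset.mem_insert_self, if_true, hv, false_and, if_false, add_zero]
    by_cases h1 : X.card = 1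
    · simp [h1]
    · simp [h1]
  have t6 : ∑ X ∈ L.powerset, (if NearlyIndep G (insert w (insert u X)) then
      f (insert w (insert u X)).card else 0) = L.card * f 3 := by
    rw [← hone]
    apply Finset.sum_congr rfl
    intro X hX'
    obtain ⟨a, b, c⟩ := hX X hX'
    rw [h.near]
    have hc : (insert w (insert u X)).card = X.card + 2 := by
      rw [Finset.card_insert_of_notMem, Finset.card_insert_of_notMem c]
      simp [hwu, a]
    have hd : (insert w (insert u X)) \ {w, u} = X := by
      ext x
      simp only [Finset.mem_sdiff, Finset.mem_insert, Finset.mem_singleton, not_or]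
      constructor
      · rintro ⟨rfl | rfl | hx, hx'⟩
        · exact absurd rfl hx'.1
        · exact absurd rfl hx'.2
        · exact hx
      · intro hx
        refine ⟨Or.inr (Or.inr hx), ?_, ?_⟩
        · rintro rfl; exact a hx
        · rintro rfl; exact c hx
    have hv : v ∉ insert w (insert u X) := by simp [hwv.symm, hvu, b]
    rw [hc, hd]
    simp only [Finset.mem_insert_self, if_true, hv, false_and, if_false, add_zero]
    by_cases h1 : X.card = 1
    · simp [h1]
    · simp [h1]
  have t7 : ∑ X ∈ L.powerset, (if NearlyIndep G (insert w (insert v X)) then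
      f (insert w (insert v X)).card else 0) = f 2 := by
    have : ∑ X ∈ L.powerset, (if X = ∅ then f 2 else 0) = f 2 := by
      rw [Finset.sum_ite_eq']
      simp
    rw [← this]
    apply Finset.sum_congr rfl
    intro X hX'
    obtain ⟨a, b, c⟩ := hX X hX'
    rw [h.near]
    have hc : (insert w (insert v X)).card = X.card + 2 := by
      rw [Finset.card_insert_of_notMem, Finset.card_insert_of_notMem b]
      simp [hwv, a]
    have hd : (insert w (insert v X)) \ {w, u} = insert v X := by
      ext x
      simp only [Finset.mem_sdiff, Finset.mem_insert, Finset.mem_singleton, not_or]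
      constructor
      · rintro ⟨rfl | rfl | hx, hx'⟩
        · exact absurd rfl hx'.1
        · exact Or.inl rfl
        · exact Or.inr hx
      · rintro (rfl | hx)
        · exact ⟨Or.inr (Or.inl rfl), hwv.symm, hvu⟩
        · refine ⟨Or.inr (Or.inr hx), ?_, ?_⟩
          · rintro rfl; exact a hx
          · rintro rfl; exact c hx
    have hu : u ∉ insert w (insert v X) := by simp [hwu.symm, hvu.symm, c]
    rw [hc, hd]
    simp only [Finset.mem_insert_self, if_true, hu, and_false, if_false, add_zero,
      Finset.card_insert_of_notMem b]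
    by_cases h1 : X = ∅
    · simp [h1]
    · simp [h1]
  have t8 : ∑ X ∈ L.powerset, (if NearlyIndep G (insert w (insert v (insert u X))) then
      f (insert w (insert v (insert u X))).card else 0) = 0 := by
    apply Finset.sum_eq_zero
    intro X hX'
    obtain ⟨a, b, c⟩ := hX X hX'
    rw [h.near]
    have hd : (insert w (insert v (insert u X))) \ {w, u} = insert v X := by
      ext x
      simp only [Finset.mem_sdiff, Finset.mem_insert, Finset.mem_singleton, not_or]
      constructor
      · rintro ⟨rfl | rfl | rfl | hx, hx'⟩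
        · exact absurd rfl hx'.1
        · exact Or.inl rfl
        · exact absurd rfl hx'.2
        · exact Or.inr hx
      · rintro (rfl | hx)
        · exact ⟨Or.inr (Or.inl rfl), hwv.symm, hvu⟩
        · refine ⟨Or.inr (Or.inr (Or.inr hx)), ?_, ?_⟩
          · rintro rfl; exact a hx
          · rintro rfl; exact c hx
    rw [hd]
    simp [Finset.card_insert_of_notMem b]
  rw [t1, t2, t3, t4, t5, t6, t7, t8]
  ring

theorem Shape.card_L [Fintype V] [DecidableEq V] {G : SimpleGraph V} {w v u : V}
    (h : Shape G w v u) : (univ \ {w, v, u} : Finset V).card + 3 = Fintype.card V := by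
  have h3 : ({w, v, u} : Finset V).card = 3 := by
    rw [Finset.card_insert_of_notMem, Finset.card_pair h.vu]
    simp [h.wv, h.wu]
  have := Finset.card_sdiff_add_card_eq_card (Finset.subset_univ ({w, v, u} : Finset V))
  rw [h3, Finset.card_univ] at this
  exact this

theorem Shape.sigma1 [Fintype V] [DecidableEq V] {G : SimpleGraph V} {w v u : V}
    (h : Shape G w v u) (m : ℕ) (hm : m + 3 = Fintype.card V) :
    sigma1 G = 2 ^ m + 2 * m + 1 := by
  have h1 := h.sum (fun _ => 1)
  have h2 := h.card_L
  have h3 : (univ \ {w, v, u} : Finset V).card = m := by omega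
  simp only [Finset.sum_const, Finset.card_powerset, smul_eq_mul, mul_one, h3] at h1
  rw [H269Av1.sigma1, h1]
  ring

theorem Shape.total1 [Fintype V] [DecidableEq V] {G : SimpleGraph V} {w v u : V}
    (h : Shape G w v u) (m : ℕ) (hm : m + 3 = Fintype.card V) :
    2 * total1 G = m * 2 ^ m + 4 * 2 ^ m + 10 * m + 4 := by
  have h1 := h.sum (fun k => k)
  have h2 := h.card_L
  have h3 : (univ \ {w, v, u} : Finset V).card = m := by omega
  have h4 := sum_powerset_card_eq (univ \ {w, v, u} : Finset V)
  simp only [Finset.sum_add_distrib, Finset.sum_const, Finset.card_powerset, smul_eq_mul, h3]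
    at h1 h4
  rw [H269Av1.total1, h1]
  linarith

/-! ### The dichotomy for trees -/

theorem exists_outside_nbr [Fintype V] [DecidableEq V] {T : SimpleGraph V} (hT : T.Connected)
    (hcard : 3 ≤ Fintype.card V) {u v : V} :
    ∃ w, w ≠ u ∧ w ≠ v ∧ (T.Adj w u ∨ T.Adj w v) := by
  by_contra hcon
  push Not at hcon
  have hcl : ∀ y, Relation.ReflTransGen T.Adj u y → y = u ∨ y = v := by
    intro y hy
    induction hy with
    | refl => exact Or.inl rfl
    | @tail b c _ hbc ih =>
      by_contra hc
      push Not at hc
      have := hcon c hc.1 hc.2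
      rcases ih with rfl | rfl
      · exact this.1 hbc.symm
      · exact this.2 hbc.symm
  have : (univ : Finset V) ⊆ {u, v} := by
    intro y _
    have h1 := hT.preconnected u y
    rw [SimpleGraph.reachable_iff_reflTransGen] at h1
    have := hcl y h1
    simpa using this
  have h2 := Finset.card_le_card this
  have h3 : ({u, v} : Finset V).card ≤ 2 := Finset.card_le_two
  rw [Finset.card_univ] at h2
  omega

theorem exists_nbr {T : SimpleGraph V} (hT : T.Connected) {x y : V} (hxy : x ≠ y) :
    ∃ z, T.Adj x z := by
  obtain ⟨p⟩ := hT.preconnected x y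
  cases p with
  | nil => exact absurd rfl hxy
  | cons h _ => exact ⟨_, h⟩

theorem no_triangle {T : SimpleGraph V} (hT : T.IsAcyclic) {a b c : V} (hab : T.Adj a b)
    (hbc : T.Adj b c) (hca : T.Adj c a) : False := by
  classical
  have := hT.cliqueFree (n := 3) le_rfl
  apply this {a, b, c}
  rw [SimpleGraph.is3Clique_triple_iff]
  exact ⟨hab, hca.symm, hbc⟩

theorem dichotomy [Fintype V] [DecidableEq V] {T : SimpleGraph V} (hT : T.IsTree)
    (hcard : 4 ≤ Fintype.card V) :
    (∀ u v, T.Adj u v → 6 * ∑ S ∈ fam T u v, S.card ≤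
      (3 * Fintype.card V + 1) * (fam T u v).card) ∨ ∃ w v u, Shape T w v u := by
  by_contra hcon
  push Not at hcon
  obtain ⟨⟨u, v, huv, hlt⟩, hno⟩ := hcon
  obtain ⟨w, hwu, hwv, hw⟩ := exists_outside_nbr hT.connected (by omega : 3 ≤ Fintype.card V)
    (u := u) (v := v)
  have huniq : ∀ x, x ≠ u → x ≠ v → (T.Adj x u ∨ T.Adj x v) → x = w := by
    intro x hxu hxv hx
    by_contra hne
    have := edge_bound_two huv hxu hxv hwu hwv hne hx hw
    omega
  have hout : ∀ a b, T.Adj a b → a ≠ u → a ≠ v → a ≠ w → b ≠ u → b ≠ v → b ≠ w → False := by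
    intro a b hab hau hav haw hbu hbv hbw
    have := edge_bound_one huv hwu hwv hw hab hau hav haw hbu hbv hbw
    omega
  have hrest : ∀ y, y ≠ u → y ≠ v → y ≠ w → T.Adj y w := by
    intro y hyu hyv hyw
    obtain ⟨z, hz⟩ := exists_nbr hT.connected hyu
    have hzu : z ≠ u := by
      rintro rfl
      exact hyw (huniq y hyu hyv (Or.inl hz))
    have hzv : z ≠ v := by
      rintro rfl
      exact hyw (huniq y hyu hyv (Or.inr hz))
    by_cases hzw : z = w
    · rwa [← hzw]
    · exact (hout y z hz hyu hyv hyw hzu hzv hzw).elim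
  -- a general statement for the two symmetric cases
  have hgen : ∀ p q : V, T.Adj p q → w ≠ p → w ≠ q → T.Adj w p →
      (∀ x, x ≠ p → x ≠ q → (T.Adj x p ∨ T.Adj x q) → x = w) →
      (∀ a b, T.Adj a b → a ≠ p → a ≠ q → a ≠ w → b ≠ p → b ≠ q → b ≠ w → False) →
      (∀ y, y ≠ p → y ≠ q → y ≠ w → T.Adj y w) → Shape T w p q := by
    intro p q hpq hwp hwq hwpA huniq hout hrest
    have hnwq : ¬ T.Adj w q := fun h => no_triangle hT.isAcyclic hwpA hpq h.symm
    refine ⟨hwp, hwq, hpq.ne, ?_⟩
    intro x y
    constructor
    · intro hxy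
      by_cases hxw : x = w
      · subst hxw
        refine Or.inl ⟨rfl, hxy.ne', ?_⟩
        rintro rfl
        exact hnwq hxy
      · by_cases hyw : y = w
        · subst hyw
          refine Or.inr (Or.inl ⟨rfl, hxy.ne, ?_⟩)
          rintro rfl
          exact hnwq hxy.symm
        · -- neither is `w`
          by_cases hxp : x = p
          · subst hxp
            by_cases hyq : y = q
            · exact Or.inr (Or.inr (Or.inl ⟨rfl, hyq⟩))
            · exact absurd (huniq y hxy.ne' hyq (Or.inl hxy.symm)) hyw
          · by_cases hxq : x = q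
            · subst hxq
              by_cases hyp : y = p
              · exact Or.inr (Or.inr (Or.inr ⟨rfl, hyp⟩))
              · exact absurd (huniq y hyp hxy.ne' (Or.inr hxy.symm)) hyw
            · have hyp : y ≠ p := by
                rintro rfl
                exact hxw (huniq x hxp hxq (Or.inl hxy))
              have hyq : y ≠ q := by
                rintro rfl
                exact hxw (huniq x hxp hxq (Or.inr hxy))
              exact (hout x y hxy hxp hxq hxw hyp hyq hyw).elim
    · rintro (⟨rfl, h1, h2⟩ | ⟨rfl, h1, h2⟩ | ⟨rfl, rfl⟩ | ⟨rfl, rfl⟩)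
      · by_cases hyp : y = p
        · rw [hyp]; exact hwpA
        · exact (hrest y hyp h2 h1).symm
      · by_cases hxp : x = p
        · rw [hxp]; exact hwpA.symm
        · exact hrest x hxp h2 h1
      · exact hpq
      · exact hpq.symm
  rcases hw with hw | hw
  · exact hno w u v (hgen u v huv hwu hwv hw huniq hout hrest)
  · refine hno w v u (hgen v u huv.symm hwv hwu hw ?_ ?_ ?_)
    · intro x h1 h2 h3
      exact huniq x h2 h1 h3.symm
    · intro a b hab h1 h2 h3 h4 h5 h6
      exact hout a b hab h2 h1 h3 h5 h4 h6
    · intro y h1 h2 h3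
      exact hrest y h2 h1 h3

/-! ### `R n` has this shape and is a tree -/

theorem R_shape (n : ℕ) (hn : 4 ≤ n) : Shape (R n) ⟨0, by omega⟩ ⟨1, by omega⟩ ⟨2, by omega⟩ := by
  refine ⟨by simp, by simp, by simp, ?_⟩
  intro x y
  simp only [R, SimpleGraph.fromRel_adj, ne_eq, Fin.ext_iff]
  omega

theorem Shape.isTree [Fintype V] [DecidableEq V] {G : SimpleGraph V} {w v u : V}
    (h : Shape G w v u) : G.IsTree := by
  classical
  have hwv := h.wv
  have hwu := h.wu
  have hvu := h.vu
  rw [SimpleGraph.isTree_iff_connected_and_card]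
  constructor
  · have hv : G.Adj v w := (h.adj v w).2 (Or.inr (Or.inl ⟨rfl, hwv.symm, hvu⟩))
    have hu : G.Adj u v := (h.adj u v).2 (Or.inr (Or.inr (Or.inr ⟨rfl, rfl⟩)))
    have hr : ∀ x, G.Reachable x w := by
      intro x
      by_cases hxw : x = w
      · rw [hxw]
      · by_cases hxu : x = u
        · rw [hxu]
          exact hu.reachable.trans hv.reachable
        · exact ((h.adj x w).2 (Or.inr (Or.inl ⟨rfl, hxw, hxu⟩))).reachable
    rw [SimpleGraph.connected_iff]
    exact ⟨fun x y => (hr x).trans (hr y).symm, ⟨w⟩⟩
  · let φ : {x : V // x ≠ w} → G.edgeSet := fun x =>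
      if hx : x.1 = u then ⟨s(v, u), (h.adj v u).2 (Or.inr (Or.inr (Or.inl ⟨rfl, rfl⟩)))⟩
      else ⟨s(w, x.1), (h.adj w x.1).2 (Or.inl ⟨rfl, x.2, hx⟩)⟩
    have hφ : Function.Bijective φ := by
      constructor
      · rintro ⟨x, hx⟩ ⟨y, hy⟩ hxy
        simp only [φ] at hxy
        apply Subtype.ext
        show x = y
        by_cases hxu : x = u
        · by_cases hyu : y = u
          · rw [hxu, hyu]
          · rw [dif_pos hxu, dif_neg hyu] at hxy
            have := congrArg Subtype.val hxy
            simp only [Sym2.eq_iff] at this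
            rcases this with ⟨h1, _⟩ | ⟨_, h2⟩
            · exact absurd h1.symm hwv
            · exact absurd h2.symm hwu
        · by_cases hyu : y = u
          · rw [dif_neg hxu, dif_pos hyu] at hxy
            have := congrArg Subtype.val hxy
            simp only [Sym2.eq_iff] at this
            rcases this with ⟨h1, _⟩ | ⟨h1, _⟩
            · exact absurd h1 hwv
            · exact absurd h1 hwu
          · rw [dif_neg hxu, dif_neg hyu] at hxy
            have := congrArg Subtype.val hxy
            simp only [Sym2.eq_iff] at this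
            rcases this with ⟨_, h1⟩ | ⟨h1, h2⟩
            · exact h1
            · exact absurd h2 hx
      · rintro ⟨e, he⟩
        induction e using Sym2.ind with
        | _ x y =>
          have hxy := (h.adj x y).1 he
          rcases hxy with ⟨rfl, h1, h2⟩ | ⟨rfl, h1, h2⟩ | ⟨rfl, rfl⟩ | ⟨rfl, rfl⟩
          · exact ⟨⟨y, h1⟩, by simp [φ, h2]⟩
          · exact ⟨⟨x, h1⟩, by simp [φ, h2, Sym2.eq_swap]⟩
          · exact ⟨⟨y, hwu.symm⟩, by simp [φ]⟩
          · exact ⟨⟨x, hwu.symm⟩, by simp [φ, Sym2.eq_swap]⟩
    have h1 : Nat.card G.edgeSet = Nat.card {x : V // x ≠ w} :=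
      (Nat.card_congr (Equiv.ofBijective φ hφ)).symm
    rw [h1, Nat.card_eq_fintype_card, Nat.card_eq_fintype_card]
    have h2 : Fintype.card {x : V // x ≠ w} = Fintype.card V - 1 := by
      rw [Fintype.card_subtype_compl, Fintype.card_subtype_eq]
    have h3 : 0 < Fintype.card V := Fintype.card_pos_iff.2 ⟨w⟩
    omega

end H269Av1
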